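import Pool.Agent.U542.FH.Stm

/-!
Project FH, package CYC: from the closed walk of signed permutations to the cycle.
-/

set_option autoImplicit false

namespace Pool.Agent.U542.FH

open Finset

lemma cyc_nodup {n : ℕ} {w : List Letter} (h : Valid n w) : (w.map Prod.fst).Nodup :=
  (List.Perm.nodup_iff h).mpr List.nodup_range

lemma cyc_length {n : ℕ} {w : List Letter} (h : Valid n w) : w.length = n := by
  have := List.Perm.length_eq h
  simpa using this

lemma cyc_ng_ne (a : Letter) : ng a ≠ a := by
  intro h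
  have h2 := congrArg Prod.snd h
  unfold ng at h2
  simp at h2

lemma cyc_not_both {n : ℕ} {w : List Letter} (h : Valid n w) (a : Letter) (h1 : a ∈ w)
    (h2 : ng a ∈ w) : False :=
  cyc_ng_ne a (List.inj_on_of_nodup_map (cyc_nodup h) h2 h1 rfl)

lemma cyc_valid_ng {n : ℕ} {w : List Letter} (h : Valid n w) : Valid n (w.map ng) := by
  unfold Valid at *
  rw [List.map_map]
  exact h

lemma cyc_take (u z : List Letter) (x : Letter) :
    (u ++ x :: z).take (u.length + 1) = u ++ [x] := by
  rw [List.take_append]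
  simp

lemma cyc_flip {n : ℕ} {w w' : List Letter} {q : ℕ × Finset Letter} (h : Flip w w' q)
    (hw : Valid n w) :
    1 ≤ q.1 ∧ q.1 ≤ n ∧ pre w' q.1 = q.2 ∧ pre w q.1 ≠ q.2 ∧
      ∀ r, r ≤ n → r ≠ q.1 → pre w' r = pre w r := by
  have hl := cyc_length hw
  have hnd := cyc_nodup hw
  rcases h with ⟨u, a, b, v, rfl, rfl, rfl⟩ | ⟨u, a, rfl, rfl, rfl⟩
  · simp only [List.length_append, List.length_cons] at hl
    refine ⟨Nat.le_add_left _ _, by simp only; omega, ?_, ?_, ?_⟩
    · unfold pre
      simp only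
      rw [cyc_take]
    · unfold pre
      simp only
      rw [cyc_take]
      intro he
      have hb : b ∈ (u ++ [b]).toFinset := by simp
      rw [← he] at hb
      simp only [List.toFinset_append, List.toFinset_cons, List.toFinset_nil, insert_empty_eq,
        Finset.mem_union, List.mem_toFinset, Finset.mem_singleton] at hb
      rw [List.map_append, List.nodup_append] at hnd
      rcases hb with hb | hb
      · exact hnd.2.2 b.1 (List.mem_map_of_mem hb) b.1 (by simp) rfl
      · have h3 := hnd.2.1
        rw [hb] at h3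
        simp at h3
    · intro r hr hrq
      simp only at hrq
      unfold pre
      rcases Nat.lt_or_ge r (u.length + 1) with h1 | h1
      · rw [List.take_append_of_le_length (by omega), List.take_append_of_le_length (by omega)]
      · obtain ⟨k, rfl⟩ : ∃ k, r = u.length + (k + 2) := ⟨r - u.length - 2, by omega⟩
        rw [List.take_append, List.take_append]
        ext x
        simp only [Nat.add_sub_cancel_left, List.take_succ_cons, List.toFinset_append,
          List.toFinset_cons, Finset.mem_union, Finset.mem_insert, List.mem_toFinset]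
        tauto
  · simp only [List.length_append, List.length_cons, List.length_nil] at hl
    refine ⟨Nat.le_add_left _ _, by simp only; omega, ?_, ?_, ?_⟩
    · unfold pre
      simp only
      rw [cyc_take]
    · unfold pre
      simp only
      rw [cyc_take]
      intro he
      have hb : ng a ∈ (u ++ [ng a]).toFinset := by simp
      rw [← he] at hb
      rw [List.mem_toFinset] at hb
      exact cyc_not_both hw a (by simp) hb
    · intro r hr hrq
      simp only at hrq
      unfold pre
      rw [List.take_append_of_le_length (by omega), List.take_append_of_le_length (by omega)]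

lemma cyc_enter (g : ℕ → Prop) (a : ℕ) (ha : ¬ g a) : ∀ b, a ≤ b → g b →
    ∃ s, a ≤ s ∧ s < b ∧ ¬ g s ∧ g (s + 1) := by
  intro b
  induction b with
  | zero =>
    intro h1 h2
    have : a = 0 := by omega
    rw [this] at ha
    exact absurd h2 ha
  | succ b ih =>
    intro h1 h2
    by_cases hb : g b
    · rcases Nat.eq_or_lt_of_le h1 with h3 | h3
      · rw [h3] at ha
        exact absurd h2 ha
      · obtain ⟨s, hs1, hs2, hs3⟩ := ih (by omega) hb
        exact ⟨s, hs1, by omega, hs3⟩
    · rcases Nat.eq_or_lt_of_le h1 with h3 | h3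
      · rw [h3] at ha
        exact absurd h2 ha
      · exact ⟨b, by omega, by omega, hb, h2⟩

/-- A set of residues with exactly one entrance is an arc. -/
lemma cyc_arc {L : ℕ} [NeZero L] (p : ZMod L → Prop) (i0 : ZMod L) (h0 : ¬ p i0)
    (h1 : p (i0 + 1)) (hu : ∀ i, ¬ p i → p (i + 1) → i = i0) :
    ∃ (a : ZMod L) (m : ℕ), ∀ i, p i ↔ ∃ s : ℕ, s ≤ m ∧ i = a + (s : ZMod L) := by
  classical
  have hLpos : 0 < L := Nat.pos_of_ne_zero (NeZero.ne L)
  have hend : ¬ p (i0 + 1 + ((L - 1 : ℕ) : ZMod L)) := by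
    rw [Nat.cast_sub hLpos]
    simpa using h0
  have hex : ∃ s : ℕ, ¬ p (i0 + 1 + (s : ZMod L)) := ⟨L - 1, hend⟩
  set M := Nat.find hex with hM
  have hM1 : ¬ p (i0 + 1 + (M : ZMod L)) := Nat.find_spec hex
  have hM2 : ∀ s, s < M → p (i0 + 1 + (s : ZMod L)) := by
    intro s hs
    have := Nat.find_min hex hs
    exact not_not.mp this
  have hMpos : 0 < M := by
    rcases Nat.eq_zero_or_pos M with h | h
    · exfalso
      rw [h] at hM1
      apply hM1
      simpa using h1
    · exact h
  have hM3 : ∀ s, M ≤ s → s < L → ¬ p (i0 + 1 + (s : ZMod L)) := by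
    intro s hs hsL hps
    obtain ⟨t, ht1, ht2, ht3, ht4⟩ := cyc_enter (fun s : ℕ => p (i0 + 1 + (s : ZMod L))) M hM1 s hs hps
    simp only [Nat.cast_add, Nat.cast_one] at ht3 ht4
    have h5 := hu _ ht3 (by rw [add_assoc]; exact ht4)
    have h6 : ((t + 1 : ℕ) : ZMod L) = 0 := by
      push_cast
      have : i0 + ((t : ZMod L) + 1) = i0 + 0 := by
        rw [add_zero]
        calc i0 + ((t : ZMod L) + 1) = i0 + 1 + (t : ZMod L) := by ring
          _ = i0 := h5
      exact add_left_cancel this
    rw [ZMod.natCast_eq_zero_iff] at h6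
    have := Nat.le_of_dvd (by omega) h6
    omega
  refine ⟨i0 + 1, M - 1, fun i => ?_⟩
  constructor
  · intro hi
    refine ⟨(i - (i0 + 1)).val, ?_, ?_⟩
    · by_contra hc
      refine hM3 (i - (i0 + 1)).val (by omega) (ZMod.val_lt _) ?_
      rw [ZMod.natCast_zmod_val]
      simpa using hi
    · rw [ZMod.natCast_zmod_val]
      ring
  · rintro ⟨s, hs, rfl⟩
    exact hM2 s (by omega)

/-- Between two points of a set of residues with at most one entrance, one of the two arcs lies in
the set. -/
lemma cyc_two {L : ℕ} [NeZero L] (p : ZMod L → Prop) (i0 : ZMod L)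
    (hu : ∀ i, ¬ p i → p (i + 1) → i = i0) (i j : ZMod L) (hij : i ≠ j) (hi : p i) (hj : p j) :
    (∀ t : ℕ, t ≤ (j - i).val → p (i + (t : ZMod L))) ∨
      (∀ t : ℕ, t ≤ (i - j).val → p (j + (t : ZMod L))) := by
  by_contra hc
  push Not at hc
  obtain ⟨⟨t1, ht1, ht1'⟩, ⟨t2, ht2, ht2'⟩⟩ := hc
  obtain ⟨s1, a1, a2, a3, a4⟩ := cyc_enter (fun s : ℕ => p (i + (s : ZMod L))) t1 ht1'
    (j - i).val ht1 (by rw [ZMod.natCast_zmod_val]; simpa using hj)
  obtain ⟨s2, b1, b2, b3, b4⟩ := cyc_enter (fun s : ℕ => p (j + (s : ZMod L))) t2 ht2'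
    (i - j).val ht2 (by rw [ZMod.natCast_zmod_val]; simpa using hi)
  simp only [Nat.cast_add, Nat.cast_one] at a3 a4 b3 b4
  have e1 := hu _ a3 (by rw [add_assoc]; exact a4)
  have e2 := hu _ b3 (by rw [add_assoc]; exact b4)
  have hne : j - i ≠ 0 := sub_ne_zero.mpr (Ne.symm hij)
  have hval : (i - j).val = L - (j - i).val := by
    have : i - j = -(j - i) := by ring
    rw [this, ZMod.neg_val, if_neg hne]
  have hlt := ZMod.val_lt (j - i)
  have e3 : ((s1 : ℕ) : ZMod L) = (((j - i).val + s2 : ℕ) : ZMod L) := by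
    push_cast
    rw [ZMod.natCast_zmod_val]
    have h := e1.trans e2.symm
    calc (s1 : ZMod L) = i + (s1 : ZMod L) - i := by ring
      _ = j + (s2 : ZMod L) - i := by rw [h]
      _ = j - i + (s2 : ZMod L) := by ring
  rw [ZMod.natCast_eq_natCast_iff', Nat.mod_eq_of_lt (by omega), Nat.mod_eq_of_lt (by omega)] at e3
  omega

/-- The package CYC. -/
theorem t_CYC : S_CYC := by
  intro hI n hn
  obtain ⟨L, c, q, hc0, hval, hflip, hq⟩ := hI n (by omega)
  -- valid words starting with a prescribed letter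
  have hword : ∀ x : Letter, x.1 < 2 → ∃ w, Valid n w ∧ pre w 1 = {x} := by
    intro x hx
    obtain ⟨m, rfl⟩ : ∃ m, n = m + 2 := ⟨n - 2, by omega⟩
    have hx' : x.1 = 0 ∨ x.1 = 1 := by omega
    rcases hx' with hx' | hx'
    · refine ⟨x :: (1, true) :: (List.range m).map (fun k => (k + 2, true)), ?_, ?_⟩
      · unfold Valid
        rw [List.range_succ_eq_map, List.range_succ_eq_map]
        simp only [List.map_cons, List.map_map, hx']
        exact List.Perm.refl _
      · unfold pre
        simp
    · refine ⟨x :: (0, true) :: (List.range m).map (fun k => (k + 2, true)), ?_, ?_⟩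
      · unfold Valid
        rw [List.range_succ_eq_map, List.range_succ_eq_map]
        simp only [List.map_cons, List.map_map, hx']
        exact List.Perm.swap _ _ _
      · unfold pre
        simp
  have hL : 3 ≤ L := by
    obtain ⟨w1, v1, p1⟩ := hword (0, true) (by norm_num)
    obtain ⟨w2, v2, p2⟩ := hword (0, false) (by norm_num)
    obtain ⟨w3, v3, p3⟩ := hword (1, true) (by norm_num)
    obtain ⟨k1, ⟨l1, q1⟩, -⟩ := hq w1 1 v1 le_rfl (by omega)
    obtain ⟨k2, ⟨l2, q2⟩, -⟩ := hq w2 1 v2 le_rfl (by omega)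
    obtain ⟨k3, ⟨l3, q3⟩, -⟩ := hq w3 1 v3 le_rfl (by omega)
    rw [p1] at q1
    rw [p2] at q2
    rw [p3] at q3
    have n12 : k1 ≠ k2 := by
      rintro rfl
      rw [q1] at q2
      have := (Prod.mk.injEq _ _ _ _).mp q2
      simp at this
    have n13 : k1 ≠ k3 := by
      rintro rfl
      rw [q1] at q3
      have := (Prod.mk.injEq _ _ _ _).mp q3
      simp at this
    have n23 : k2 ≠ k3 := by
      rintro rfl
      rw [q2] at q3
      have := (Prod.mk.injEq _ _ _ _).mp q3
      simp at this
    omega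
  have : NeZero L := ⟨by omega⟩
  set C : ZMod L → List Letter := fun i => c i.val with hC
  have hCv : ∀ i, Valid n (C i) := fun i => hval _ (ZMod.val_lt i).le
  have hCs : ∀ i, C (i + 1) = c (i.val + 1) := by
    intro i
    have h1 : (i + 1).val = (i.val + 1) % L := by
      rw [ZMod.val_add, ZMod.val_one_eq_one_mod, Nat.mod_eq_of_lt (by omega : 1 < L)]
    simp only [hC]
    rw [h1]
    have h2 := ZMod.val_lt i
    rcases Nat.lt_or_ge (i.val + 1) L with h3 | h3
    · rw [Nat.mod_eq_of_lt h3]
    · have h4 : i.val + 1 = L := by omega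
      rw [h4, Nat.mod_self, hc0]
  have hCf : ∀ i, Flip (C i) (C (i + 1)) (q i.val) := by
    intro i
    rw [hCs]
    exact hflip _ (ZMod.val_lt i)
  -- entrances
  have hent : ∀ (j : ℕ) (S : Finset Letter), j ≤ n → ∀ i : ZMod L,
      (pre (C i) j ≠ S ∧ pre (C (i + 1)) j = S) ↔ q i.val = (j, S) := by
    intro j S hj i
    obtain ⟨f1, f2, f3, f4, f5⟩ := cyc_flip (hCf i) (hCv i)
    constructor
    · rintro ⟨h1, h2⟩
      have hjq : j = (q i.val).1 := by
        by_contra hne
        exact h1 ((f5 j hj hne).symm.trans h2)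
      rw [hjq] at h2 ⊢
      rw [f3] at h2
      rw [← h2]
    · intro h
      rw [h] at f3 f4
      exact ⟨f4, f3⟩
  have hcell : ∀ w j, Valid n w → 1 ≤ j → j ≤ n → ∃ i0 : ZMod L,
      (pre (C i0) j ≠ pre w j ∧ pre (C (i0 + 1)) j = pre w j) ∧
      ∀ i : ZMod L, ¬ (pre (C i) j = pre w j) → pre (C (i + 1)) j = pre w j → i = i0 := by
    intro w j hw hj1 hj2
    obtain ⟨k, ⟨hk, hqk⟩, huk⟩ := hq w j hw hj1 hj2
    have hkv : ((k : ℕ) : ZMod L).val = k := ZMod.val_natCast_of_lt hk
    refine ⟨(k : ZMod L), (hent j _ hj2 _).mpr (by rw [hkv]; exact hqk), ?_⟩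
    intro i h1 h2
    have h3 := (hent j _ hj2 i).mp ⟨h1, h2⟩
    have h4 := huk i.val ⟨ZMod.val_lt i, h3⟩
    rw [← h4, ZMod.natCast_zmod_val]
  refine ⟨L, C, hL, ?_, hCv, ?_, ?_⟩
  · -- injectivity
    intro i j hCij
    by_contra hij
    set w := C i with hw
    have hwv : Valid n w := hCv i
    have hAB : ∀ r, 1 ≤ r → r ≤ n →
        (∀ t : ℕ, t ≤ (j - i).val → pre (C (i + (t : ZMod L))) r = pre w r) ∨
        (∀ t : ℕ, t ≤ (i - j).val → pre (C (j + (t : ZMod L))) r = pre w r) := by
      intro r hr1 hr2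
      obtain ⟨i0, -, hu⟩ := hcell w r hwv hr1 hr2
      exact cyc_two (fun x => pre (C x) r = pre w r) i0 hu i j hij rfl (by rw [← hCij])
    have hji : j - i ≠ 0 := sub_ne_zero.mpr (Ne.symm hij)
    have hij' : i - j ≠ 0 := sub_ne_zero.mpr hij
    have hd1 : 1 ≤ (j - i).val := Nat.one_le_iff_ne_zero.mpr (by
      rw [Ne, ZMod.val_eq_zero]; exact hji)
    have he1 : 1 ≤ (i - j).val := Nat.one_le_iff_ne_zero.mpr (by
      rw [Ne, ZMod.val_eq_zero]; exact hij')
    have hlt := ZMod.val_lt (j - i)
    have hde : (i - j).val = L - (j - i).val := by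
      have : i - j = -(j - i) := by ring
      rw [this, ZMod.neg_val, if_neg hji]
    obtain ⟨f1, f2, f3, f4, f5⟩ := cyc_flip (hCf i) (hCv i)
    obtain ⟨g1, g2, g3, g4, g5⟩ := cyc_flip (hCf j) (hCv j)
    -- rank where the first arc fails
    have hs : ∀ t : ℕ, t ≤ (i - j).val → pre (C (j + (t : ZMod L))) (q i.val).1 =
        pre w (q i.val).1 := by
      rcases hAB _ f1 f2 with h | h
      · exfalso
        have h1 := h 1 hd1
        rw [Nat.cast_one, f3] at h1
        exact f4 h1.symm
      · exact h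
    have hp : ∀ t : ℕ, t ≤ (j - i).val → pre (C (i + (t : ZMod L))) (q j.val).1 =
        pre w (q j.val).1 := by
      rcases hAB _ g1 g2 with h | h
      · exact h
      · exfalso
        have h1 := h 1 he1
        rw [Nat.cast_one, g3] at h1
        rw [← hCij] at g4
        exact g4 h1.symm
    set s := (q i.val).1 with hsdef
    set p := (q j.val).1 with hpdef
    -- the first letter of w
    obtain ⟨a, w0, hwa⟩ : ∃ a w0, w = a :: w0 := by
      rcases hwe : w with _ | ⟨a, w0⟩
      · have := cyc_length hwv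
        rw [hwe] at this
        simp at this
        omega
      · exact ⟨a, w0, rfl⟩
    have hap : ∀ r, 1 ≤ r → a ∈ pre w r := by
      intro r hr
      obtain ⟨r', rfl⟩ : ∃ r', r = r' + 1 := ⟨r - 1, by omega⟩
      unfold pre
      rw [hwa, List.take_succ_cons]
      simp
    have hap' : ∀ r, 1 ≤ r → ng a ∈ pre (w.map ng) r := by
      intro r hr
      obtain ⟨r', rfl⟩ : ∃ r', r = r' + 1 := ⟨r - 1, by omega⟩
      unfold pre
      rw [hwa, List.map_cons, List.take_succ_cons]
      simp
    have hmem : ∀ (x : Letter) (z : List Letter) (r : ℕ), x ∈ pre z r → x ∈ z := by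
      intro x z r hx
      unfold pre at hx
      rw [List.mem_toFinset] at hx
      exact List.mem_of_mem_take hx
    -- the opposite cell is visible somewhere
    obtain ⟨i1, ⟨-, hi1⟩, -⟩ := hcell (w.map ng) s (cyc_valid_ng hwv) f1 f2
    set t := i1 + 1 with ht
    have hnga : ng a ∈ C t := by
      apply hmem _ _ s
      rw [hi1]
      exact hap' s f1
    -- it is not in the second arc
    have hcase : (t - i).val ≤ (j - i).val ∨ (t - j).val ≤ (i - j).val := by
      by_contra hcc
      push Not at hcc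
      obtain ⟨c1, c2⟩ := hcc
      have e1 : (t - j) = (((t - i).val - (j - i).val : ℕ) : ZMod L) := by
        rw [Nat.cast_sub c1.le, ZMod.natCast_zmod_val, ZMod.natCast_zmod_val]
        ring
      have hlt2 := ZMod.val_lt (t - i)
      have e2 : (t - j).val = (t - i).val - (j - i).val := by
        rw [e1]
        exact ZMod.val_natCast_of_lt (by omega)
      omega
    rcases hcase with h | h
    · have h1 := hp _ h
      rw [ZMod.natCast_zmod_val, add_sub_cancel] at h1
      have h2 : a ∈ C t := by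
        apply hmem _ _ p
        rw [h1]
        exact hap p g1
      exact cyc_not_both (hCv t) a h2 hnga
    · have h1 := hs _ h
      rw [ZMod.natCast_zmod_val, add_sub_cancel] at h1
      have h2 : a ∈ C t := by
        apply hmem _ _ s
        rw [h1]
        exact hap s f1
      exact cyc_not_both (hCv t) a h2 hnga
  · intro i
    rcases hCf i with ⟨u, a, b, v, h1, h2, -⟩ | ⟨u, a, h1, h2, -⟩
    · exact Or.inl ⟨u, a, b, v, h1, h2⟩
    · exact Or.inr ⟨u, a, h1, h2⟩
  · intro w j hw hj1 hj2
    obtain ⟨i0, ⟨h0, h1⟩, hu⟩ := hcell w j hw hj1 hj2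
    exact cyc_arc (fun i => pre (C i) j = pre w j) i0 h0 h1 hu

end Pool.Agent.U542.FH
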