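import Mathlib

/-!
Project FH (helper542), MP_b3c0e4_co: every type `B` permutahedron of dimension at least two is
facet-Hamiltonian.  Definitions, statements of the packages, assembly.
-/

namespace Pool.Agent.U542.FH

open Finset

/-- the signed permutation vectors `(ε₁ σ(1), ..., εₙ σ(n))` -/
def signedPermVectors (n : ℕ) : Set (Fin n → ℝ) :=
  {v | ∃ (σ : Equiv.Perm (Fin n)) (ε : Fin n → ℤˣ),
    ∀ i, v i = ((ε i : ℤ) : ℝ) * (((σ i : ℕ) : ℝ) + 1)}

/-- the type `B` permutahedron -/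
def typeBPermutahedron (n : ℕ) : Set (Fin n → ℝ) := convexHull ℝ (signedPermVectors n)

/-- `F` is a nonempty face of `P`: the set of the points of `P` at which some linear functional
is maximal on `P` -/
def IsFace {n : ℕ} (P F : Set (Fin n → ℝ)) : Prop := F.Nonempty ∧ IsExposed ℝ P F

/-- a facet: a maximal proper face -/
def IsFacet {n : ℕ} (P F : Set (Fin n → ℝ)) : Prop :=
  IsFace P F ∧ F ≠ P ∧ ∀ G : Set (Fin n → ℝ), IsFace P G → G ≠ P → F ⊆ G → F = G

/-- `P` has a cycle `c 0, c 1, ..., c (L - 1)` of vertices and edges, without repeated vertices,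
such that every facet contains exactly the vertices of one nonempty path of the cycle -/
def FacetHamiltonian {n : ℕ} (P : Set (Fin n → ℝ)) : Prop :=
  ∃ (L : ℕ) (c : ZMod L → (Fin n → ℝ)), 3 ≤ L ∧ Function.Injective c ∧
    (∀ i, IsFace P {c i}) ∧ (∀ i, IsFace P (segment ℝ (c i) (c (i + 1)))) ∧
    ∀ F : Set (Fin n → ℝ), IsFacet P F →
      ∃ (a : ZMod L) (m : ℕ), ∀ i, c i ∈ F ↔ ∃ s : ℕ, s ≤ m ∧ i = a + (s : ZMod L)

/-- signed letters: `(x, true)` is `+x` and `(x, false)` is `-x` -/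
abbrev Letter := ℕ × Bool

/-- the opposite letter -/
def ng (a : Letter) : Letter := (a.1, !a.2)

/-- signed permutations of `0, ..., n-1`, written as words -/
def Valid (n : ℕ) (w : List Letter) : Prop := (w.map Prod.fst).Perm (List.range n)

/-- the vertex of the polytope given by a word: the letter at the place `p` (counted from `0`)
has the absolute value `n - p` -/
noncomputable def vec (n : ℕ) (w : List Letter) : Fin n → ℝ := fun i =>
  if ((i : ℕ), true) ∈ w then (n : ℝ) - (w.idxOf ((i : ℕ), true) : ℝ)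
  else -((n : ℝ) - (w.idxOf ((i : ℕ), false) : ℝ))

/-- the prefix of length `j`, as a set -/
def pre (w : List Letter) (j : ℕ) : Finset Letter := (w.take j).toFinset

/-- adjacent words: two neighbouring letters are exchanged, or the sign of the last letter is
changed -/
def Adj (w w' : List Letter) : Prop :=
  (∃ u a b v, w = u ++ a :: b :: v ∧ w' = u ++ b :: a :: v) ∨
    (∃ u a, w = u ++ [a] ∧ w' = u ++ [ng a])

/-- the same with the rank `q.1` and the new prefix `q.2` of this rank -/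
def Flip (w w' : List Letter) (q : ℕ × Finset Letter) : Prop :=
  (∃ u a b v, w = u ++ a :: b :: v ∧ w' = u ++ b :: a :: v ∧
      q = (u.length + 1, (u ++ [b]).toFinset)) ∨
    (∃ u a, w = u ++ [a] ∧ w' = u ++ [ng a] ∧ q = (u.length + 1, (u ++ [ng a]).toFinset))

/-- package GEO: the faces of the type `B` permutahedron -/
def S_GEO : Prop := ∀ n : ℕ, 1 ≤ n →
  (∀ w, Valid n w → IsFace (typeBPermutahedron n) {vec n w}) ∧
  (∀ w w', Valid n w → Valid n w' → Adj w w' →
    IsFace (typeBPermutahedron n) (segment ℝ (vec n w) (vec n w'))) ∧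
  (∀ w w', Valid n w → Valid n w' → vec n w = vec n w' → w = w') ∧
  (∀ F, IsFacet (typeBPermutahedron n) F → ∃ w j, Valid n w ∧ 1 ≤ j ∧ j ≤ n ∧
    ∀ w', Valid n w' → (vec n w' ∈ F ↔ pre w' j = pre w j))

/-- package IND: the closed walk -/
def S_IND : Prop := ∀ n : ℕ, 1 ≤ n →
  ∃ (L : ℕ) (c : ℕ → List Letter) (q : ℕ → ℕ × Finset Letter), c L = c 0 ∧
    (∀ k ≤ L, Valid n (c k)) ∧ (∀ k < L, Flip (c k) (c (k + 1)) (q k)) ∧
    ∀ w j, Valid n w → 1 ≤ j → j ≤ n → ∃! k, k < L ∧ q k = (j, pre w j)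

/-- the cycle of words -/
def S_COMB : Prop := ∀ n : ℕ, 2 ≤ n →
  ∃ (L : ℕ) (c : ZMod L → List Letter), 3 ≤ L ∧ Function.Injective c ∧
    (∀ i, Valid n (c i)) ∧ (∀ i, Adj (c i) (c (i + 1))) ∧
    ∀ w j, Valid n w → 1 ≤ j → j ≤ n →
      ∃ (a : ZMod L) (m : ℕ), ∀ i, pre (c i) j = pre w j ↔ ∃ s : ℕ, s ≤ m ∧ i = a + (s : ZMod L)

/-- package CYC: from the closed walk to the cycle -/
def S_CYC : Prop := S_IND → S_COMB

/-- the final statement -/
def S_FIN : Prop := ∀ n : ℕ, 2 ≤ n → FacetHamiltonian (typeBPermutahedron n)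

theorem assembly (hG : S_GEO) (hC : S_COMB) : S_FIN := by
  intro n hn
  obtain ⟨g1, g2, g3, g4⟩ := hG n (by omega)
  obtain ⟨L, c, hL, hinj, hv, ha, hp⟩ := hC n hn
  refine ⟨L, fun i => vec n (c i), hL, fun i j h => hinj (g3 _ _ (hv i) (hv j) h),
    fun i => g1 _ (hv i), fun i => g2 _ _ (hv i) (hv _) (ha i), ?_⟩
  intro F hF
  obtain ⟨w, j, hw, hj1, hj2, hwj⟩ := g4 F hF
  obtain ⟨a, m, ham⟩ := hp w j hw hj1 hj2
  exact ⟨a, m, fun i => (hwj _ (hv i)).trans (ham i)⟩

end Pool.Agent.U542.FH
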