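import Mathlib
import Pool.Agent.U542.FH.Stm

/-!
# Project FH, package GEOA (helper293): vertices and edges of the type B permutahedron
-/

set_option autoImplicit false

namespace Pool.Agent.U542.FH

open Finset

namespace GA

/-! ### exposed faces of convex hulls -/

/-- the functional `x ↦ ∑ v_i x_i` -/
noncomputable def fn {n : ℕ} (v : Fin n → ℝ) : (Fin n → ℝ) →L[ℝ] ℝ :=
  ∑ i, (v i) • (ContinuousLinearMap.proj (R := ℝ) (φ := fun _ : Fin n => ℝ) i)

theorem fn_apply {n : ℕ} (v x : Fin n → ℝ) : fn v x = ∑ i, v i * x i := by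
  simp [fn, ContinuousLinearMap.sum_apply]

theorem face_of {n : ℕ} (X F : Set (Fin n → ℝ)) (l : (Fin n → ℝ) →L[ℝ] ℝ) (M : ℝ)
    (hM : ∀ x ∈ X, l x ≤ M) (hF : F = {x ∈ X | l x = M}) (hne : F.Nonempty) :
    IsFace (convexHull ℝ X) (convexHull ℝ F) := by
  have hle : ∀ x ∈ convexHull ℝ X, l x ≤ M := by
    have h1 : convexHull ℝ X ⊆ {x | l x ≤ M} :=
      convexHull_min (fun x hx => hM x hx) (convex_halfSpace_le l.toLinearMap.isLinear M)
    exact fun x hx => h1 hx
  have hFX : F ⊆ X := by rw [hF]; exact fun x hx => hx.1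
  have hFM : ∀ x ∈ convexHull ℝ F, l x = M := by
    have h1 : convexHull ℝ F ⊆ {x | l x = M} := by
      refine convexHull_min (fun x hx => ?_) (convex_hyperplane l.toLinearMap.isLinear M)
      rw [hF] at hx
      exact hx.2
    exact fun x hx => h1 hx
  have hcv : Convex ℝ ({x | l x < M} ∪ convexHull ℝ F) := by
    rw [convex_iff_forall_pos]
    intro x hx y hy a b ha hb hab
    have hlx : l x ≤ M := by
      rcases hx with h | h
      · exact le_of_lt h
      · exact (hFM x h).le
    have hly : l y ≤ M := by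
      rcases hy with h | h
      · exact le_of_lt h
      · exact (hFM y h).le
    have hl : l (a • x + b • y) = a * l x + b * l y := by
      rw [map_add, map_smul, map_smul, smul_eq_mul, smul_eq_mul]
    rcases hx with h | h
    · left
      have h' : l x < M := h
      change l (a • x + b • y) < M
      rw [hl]
      have e : M = a * M + b * M := by rw [← add_mul, hab, one_mul]
      rw [e]
      exact add_lt_add_of_lt_of_le (mul_lt_mul_of_pos_left h' ha)
        (mul_le_mul_of_nonneg_left hly hb.le)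
    · rcases hy with h2 | h2
      · left
        have h' : l y < M := h2
        change l (a • x + b • y) < M
        rw [hl]
        have e : M = a * M + b * M := by rw [← add_mul, hab, one_mul]
        rw [e]
        exact add_lt_add_of_le_of_lt (mul_le_mul_of_nonneg_left hlx ha.le)
          (mul_lt_mul_of_pos_left h' hb)
      · right
        exact (convex_convexHull ℝ F) h h2 ha.le hb.le hab
  have hsub : convexHull ℝ X ⊆ {x | l x < M} ∪ convexHull ℝ F := by
    refine convexHull_min (fun x hx => ?_) hcv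
    rcases lt_or_eq_of_le (hM x hx) with h | h
    · exact Or.inl h
    · right
      apply subset_convexHull ℝ F
      rw [hF]
      exact ⟨hx, h⟩
  obtain ⟨x0, hx0⟩ := hne
  have hx0' := subset_convexHull ℝ F hx0
  refine ⟨⟨x0, hx0'⟩, fun _ => ⟨l, ?_⟩⟩
  ext x
  constructor
  · intro hx
    refine ⟨convexHull_mono hFX hx, fun y hy => ?_⟩
    rw [hFM x hx]
    exact hle y hy
  · rintro ⟨hx, h⟩
    rcases hsub hx with h1 | h1
    · exfalso
      have h2 := h x0 (convexHull_mono hFX hx0')
      rw [hFM x0 hx0'] at h2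
      exact absurd h1 (not_lt.2 h2)
    · exact h1

/-! ### the signed permutation vectors -/

theorem spv_int {n : ℕ} {x : Fin n → ℝ} (hx : x ∈ signedPermVectors n) (i : Fin n) :
    ∃ z : ℤ, x i = z := by
  obtain ⟨σ, ε, h⟩ := hx
  exact ⟨(ε i : ℤ) * (((σ i : ℕ) : ℤ) + 1), by rw [h]; push_cast; ring⟩

theorem unit_sq (u : ℤˣ) : (((u : ℤ) : ℝ)) ^ 2 = 1 := by
  rcases Int.units_eq_one_or u with h | h <;> rw [h] <;> norm_num

theorem spv_sq {n : ℕ} {x : Fin n → ℝ} (hx : x ∈ signedPermVectors n) :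
    ∑ i, x i ^ 2 = ∑ i : Fin n, (((i : ℕ) : ℝ) + 1) ^ 2 := by
  obtain ⟨σ, ε, h⟩ := hx
  rw [← Equiv.sum_comp σ (fun i : Fin n => (((i : ℕ) : ℝ) + 1) ^ 2)]
  refine Finset.sum_congr rfl fun i _ => ?_
  rw [h, mul_pow, unit_sq, one_mul]

theorem spv_one {n : ℕ} {x : Fin n → ℝ} (hx : x ∈ signedPermVectors n) (i : Fin n) :
    1 ≤ x i ^ 2 := by
  obtain ⟨σ, ε, h⟩ := hx
  rw [h, mul_pow, unit_sq, one_mul]
  have : (0 : ℝ) ≤ ((σ i : ℕ) : ℝ) := Nat.cast_nonneg _
  nlinarith

theorem spv_inj {n : ℕ} {x : Fin n → ℝ} (hx : x ∈ signedPermVectors n) {i j : Fin n}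
    (hij : i ≠ j) : x i ^ 2 ≠ x j ^ 2 := by
  obtain ⟨σ, ε, h⟩ := hx
  rw [h, h, mul_pow, mul_pow, unit_sq, unit_sq, one_mul, one_mul]
  intro h1
  apply hij
  apply σ.injective
  apply Fin.ext
  have h2 : (0 : ℝ) ≤ ((σ i : ℕ) : ℝ) := Nat.cast_nonneg _
  have h3 : (0 : ℝ) ≤ ((σ j : ℕ) : ℝ) := Nat.cast_nonneg _
  have h4 : (((σ i : ℕ) : ℝ) + 1) = (((σ j : ℕ) : ℝ) + 1) := by
    rw [sq_eq_sq₀ (by linarith) (by linarith)] at h1
    exact h1
  have h5 : ((σ i : ℕ) : ℝ) = ((σ j : ℕ) : ℝ) := by linarith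
  exact_mod_cast h5

theorem edge {n : ℕ} {v v' : Fin n → ℝ} (hv : v ∈ signedPermVectors n)
    (hv' : v' ∈ signedPermVectors n)
    (H : ∀ x ∈ signedPermVectors n, ∀ i, 0 ≤ (x i - v i) * (x i - v' i))
    (H2 : ∀ x ∈ signedPermVectors n, (∀ i, x i = v i ∨ x i = v' i) → x = v ∨ x = v') :
    IsFace (typeBPermutahedron n) (segment ℝ v v') := by
  have key : ∀ x ∈ signedPermVectors n, ∑ i, (x i - v i) * (x i - v' i) =
      (∑ i, (v i + v' i) * v i) - ∑ i, (v i + v' i) * x i := by
    intro x hx
    have h1 := spv_sq hx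
    have h2 := spv_sq hv
    have e1 : ∑ i, (x i - v i) * (x i - v' i) = ∑ i, x i ^ 2 - ∑ i, (v i + v' i) * x i +
        ∑ i, v i * v' i := by
      rw [← Finset.sum_sub_distrib, ← Finset.sum_add_distrib]
      refine Finset.sum_congr rfl fun i _ => ?_
      ring
    have e2 : ∑ i, (v i + v' i) * v i = ∑ i, v i ^ 2 + ∑ i, v i * v' i := by
      rw [← Finset.sum_add_distrib]
      refine Finset.sum_congr rfl fun i _ => ?_
      ring
    rw [e1, e2, h1, h2]
    ring
  have h0 := face_of (signedPermVectors n) {v, v'} (fn fun i => v i + v' i)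
    (∑ i, (v i + v' i) * v i) (fun x hx => ?_) ?_ ⟨v, by simp⟩
  · rw [convexHull_pair] at h0
    exact h0
  · rw [fn_apply]
    have h1 := key x hx
    have h2 : 0 ≤ ∑ i, (x i - v i) * (x i - v' i) := Finset.sum_nonneg fun i _ => H x hx i
    linarith
  · ext x
    simp only [Set.mem_insert_iff, Set.mem_singleton_iff, Set.mem_setOf_eq]
    constructor
    · rintro (rfl | rfl)
      · exact ⟨hv, by rw [fn_apply]⟩
      · refine ⟨hv', ?_⟩
        rw [fn_apply]
        have h1 := key _ hv'
        have h2 : ∑ i, (x i - v i) * (x i - x i) = 0 :=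
          Finset.sum_eq_zero fun i _ => by ring
        linarith
    · rintro ⟨hx, h⟩
      rw [fn_apply] at h
      have h1 := key x hx
      rw [h, sub_self, Finset.sum_eq_zero_iff_of_nonneg (fun i _ => H x hx i)] at h1
      refine H2 x hx fun i => ?_
      rcases mul_eq_zero.1 (h1 i (Finset.mem_univ i)) with h2 | h2
      · left; linarith
      · right; linarith

/-! ### words -/

/-- the sign of a letter -/
def sg : Bool → ℝ
  | true => 1
  | false => -1

theorem sg_or (b : Bool) : sg b = 1 ∨ sg b = -1 := by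
  cases b
  · exact Or.inr rfl
  · exact Or.inl rfl

theorem sg_not (b : Bool) : sg (!b) = -sg b := by
  cases b <;> simp [sg]

variable {n : ℕ} {w w' : List Letter}

theorem len (hv : Valid n w) : w.length = n := by
  have := hv.length_eq
  simpa using this

theorem lt_n (hv : Valid n w) {p : ℕ} (hp : p < w.length) : (w[p]).1 < n := by
  have h1 : (w[p]).1 ∈ w.map Prod.fst := List.mem_map_of_mem (List.getElem_mem hp)
  have h2 := (List.Perm.mem_iff hv).1 h1
  exact List.mem_range.1 h2

theorem nd (hv : Valid n w) : (w.map Prod.fst).Nodup :=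
  (List.Perm.nodup_iff hv).2 List.nodup_range

theorem surj (hv : Valid n w) (i : Fin n) : ∃ (p : ℕ) (hp : p < w.length), (w[p]).1 = i := by
  have h1 : (i : ℕ) ∈ w.map Prod.fst := (List.Perm.mem_iff hv).2 (List.mem_range.2 i.2)
  obtain ⟨a, ha, hai⟩ := List.mem_map.1 h1
  obtain ⟨p, hp, he⟩ := List.mem_iff_getElem.1 ha
  exact ⟨p, hp, by rw [he, hai]⟩

theorem fst_inj (hv : Valid n w) {p q : ℕ} (hp : p < w.length) (hq : q < w.length)
    (h : (w[p]).1 = (w[q]).1) : p = q := by
  have h1 := (nd hv).getElem_inj_iff (i := p) (j := q) (hi := by simpa using hp)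
    (hj := by simpa using hq)
  rw [List.getElem_map, List.getElem_map] at h1
  exact h1.1 h

theorem vec_at (hv : Valid n w) {p : ℕ} (hp : p < w.length) {i : Fin n} (hi : (w[p]).1 = i) :
    vec n w i = sg (w[p]).2 * ((n : ℝ) - p) := by
  have hnd : w.Nodup := (nd hv).of_map _
  unfold vec
  rcases hb : (w[p]).2 with _ | _
  · have e : w[p] = ((i : ℕ), false) := Prod.ext hi hb
    have hnot : ((i : ℕ), true) ∉ w := by
      intro h
      obtain ⟨q, hq, he⟩ := List.mem_iff_getElem.1 h
      have h1 : p = q := fst_inj hv hp hq (by rw [he, hi])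
      subst h1
      rw [he] at hb
      simp at hb
    rw [if_neg hnot]
    have h2 : w.idxOf ((i : ℕ), false) = p := by
      rw [← e]
      exact hnd.idxOf_getElem p hp
    rw [h2]
    simp only [sg]
    ring
  · have e : w[p] = ((i : ℕ), true) := Prod.ext hi hb
    have hmem : ((i : ℕ), true) ∈ w := by
      rw [← e]
      exact List.getElem_mem hp
    rw [if_pos hmem]
    have h2 : w.idxOf ((i : ℕ), true) = p := by
      rw [← e]
      exact hnd.idxOf_getElem p hp
    rw [h2]
    simp only [sg]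
    ring

theorem vec_mem (hv : Valid n w) : vec n w ∈ signedPermVectors n := by
  have hl := len hv
  let π : Fin n → Fin n := fun p => ⟨(w[(p : ℕ)]'(by rw [hl]; exact p.2)).1,
    lt_n hv (by rw [hl]; exact p.2)⟩
  have hinj : Function.Injective π := by
    intro p q h
    apply Fin.ext
    exact fst_inj hv (by rw [hl]; exact p.2) (by rw [hl]; exact q.2) (Fin.ext_iff.1 h)
  let e : Equiv.Perm (Fin n) := Equiv.ofBijective π (Finite.injective_iff_bijective.1 hinj)
  refine ⟨e.symm.trans Fin.revPerm, fun i => if (w[((e.symm i : Fin n) : ℕ)]'(by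
    rw [hl]; exact (e.symm i).2)).2 then 1 else -1, fun i => ?_⟩
  obtain ⟨p, hp⟩ : ∃ p, p = e.symm i := ⟨_, rfl⟩
  have hpi : (w[(p : ℕ)]'(by rw [hl]; exact p.2)).1 = i := by
    have h1 : e p = i := by rw [hp, Equiv.apply_symm_apply]
    have h2 : π p = i := h1
    exact Fin.ext_iff.1 h2
  rw [vec_at hv (by rw [hl]; exact p.2) hpi]
  simp only [← hp, Equiv.trans_apply, Fin.revPerm_apply, Fin.val_rev]
  have h3 : (((n - ((p : ℕ) + 1) : ℕ) : ℝ)) + 1 = (n : ℝ) - p := by
    have h4 : n - ((p : ℕ) + 1) + 1 + p = n := by have := p.2; omega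
    have h5 : (((n - ((p : ℕ) + 1) : ℕ) : ℝ)) + 1 + p = n := by exact_mod_cast h4
    linarith
  rw [h3]
  congr 1
  cases (w[(p : ℕ)]'(by rw [hl]; exact p.2)).2 <;> simp [sg]

theorem vec_inj (hv : Valid n w) (hv' : Valid n w') (h : vec n w = vec n w') : w = w' := by
  have hl := len hv
  have hl' := len hv'
  refine List.ext_getElem (by rw [hl, hl']) fun p hp hp' => ?_
  obtain ⟨i, hi⟩ : ∃ i : Fin n, (w[p]).1 = i := ⟨⟨(w[p]).1, lt_n hv hp⟩, rfl⟩
  obtain ⟨q, hq, hqi⟩ := surj hv' i
  have h1 := vec_at hv hp hi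
  have h2 := vec_at hv' hq hqi
  rw [h] at h1
  rw [h1] at h2
  have p1 : (0 : ℝ) < (n : ℝ) - p := by
    have : (p : ℝ) < n := by exact_mod_cast (hl ▸ hp)
    linarith
  have q1 : (0 : ℝ) < (n : ℝ) - q := by
    have : (q : ℝ) < n := by exact_mod_cast (hl' ▸ hq)
    linarith
  have h3 : sg (w[p]).2 = sg (w'[q]).2 ∧ (p : ℝ) = q := by
    rcases sg_or (w[p]).2 with a | a <;> rcases sg_or (w'[q]).2 with b | b <;>
      rw [a, b] at h2 ⊢
    · exact ⟨rfl, by linarith⟩
    · exfalso; linarith
    · exfalso; linarith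
    · exact ⟨rfl, by linarith⟩
  have h4 : p = q := by exact_mod_cast h3.2
  subst h4
  apply Prod.ext
  · rw [hi, hqi]
  · have h5 := h3.1
    cases h6 : (w[p]).2 <;> cases h7 : (w'[p]).2 <;> rw [h6, h7] at h5 <;> simp [sg] at h5 ⊢ <;>
      norm_num at h5

theorem consec (z a : ℤ) (b : Bool) :
    0 ≤ ((z : ℝ) - sg b * (a : ℝ)) * ((z : ℝ) - sg b * ((a : ℝ) - 1)) := by
  rcases sg_or b with h | h
  · rw [h, one_mul, one_mul]
    rcases lt_or_ge z a with h1 | h1
    · have h2 : (z : ℝ) ≤ a - 1 := by exact_mod_cast (by omega : z ≤ a - 1)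
      nlinarith
    · have h2 : (a : ℝ) ≤ z := by exact_mod_cast h1
      nlinarith
  · rw [h]
    rcases lt_or_ge (-z) a with h1 | h1
    · have h2 : (-(z : ℝ)) ≤ a - 1 := by exact_mod_cast (by omega : -z ≤ a - 1)
      nlinarith
    · have h2 : (a : ℝ) ≤ -z := by exact_mod_cast h1
      nlinarith

theorem edge_swap (u : List Letter) (a b : Letter) (v : List Letter)
    (hv : Valid n (u ++ a :: b :: v)) (hv' : Valid n (u ++ b :: a :: v)) :
    IsFace (typeBPermutahedron n)
      (segment ℝ (vec n (u ++ a :: b :: v)) (vec n (u ++ b :: a :: v))) := by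
  obtain ⟨x, hx⟩ : ∃ x, x = vec n (u ++ a :: b :: v) := ⟨_, rfl⟩
  obtain ⟨x', hx'⟩ : ∃ x', x' = vec n (u ++ b :: a :: v) := ⟨_, rfl⟩
  obtain ⟨w, hw⟩ : ∃ w, w = u ++ a :: b :: v := ⟨_, rfl⟩
  obtain ⟨w', hw'⟩ : ∃ w', w' = u ++ b :: a :: v := ⟨_, rfl⟩
  have hlen : w.length = u.length + (v.length + 2) := by rw [hw]; simp
  have hlen' : w'.length = u.length + (v.length + 2) := by rw [hw']; simp
  have g0 : w[u.length]'(by omega) = a := by simp [hw]
  have g1 : w[u.length + 1]'(by omega) = b := by simp [hw]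
  have g0' : w'[u.length]'(by omega) = b := by simp [hw']
  have g1' : w'[u.length + 1]'(by omega) = a := by simp [hw']
  rw [← hw] at hv
  rw [← hw'] at hv'
  rw [← hx, ← hx']
  rw [← hw] at hx
  rw [← hw'] at hx'
  have ha : a.1 < n := by rw [← g0]; exact lt_n hv (by omega)
  have hb : b.1 < n := by rw [← g1]; exact lt_n hv (by omega)
  obtain ⟨p, hp⟩ : ∃ p : Fin n, (p : ℕ) = a.1 := ⟨⟨a.1, ha⟩, rfl⟩
  obtain ⟨q, hq⟩ : ∃ q : Fin n, (q : ℕ) = b.1 := ⟨⟨b.1, hb⟩, rfl⟩
  have hpq : p ≠ q := by
    intro h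
    have h1 : (w[u.length]'(by omega)).1 = (w[u.length + 1]'(by omega)).1 := by
      rw [g0, g1, ← hp, ← hq, h]
    have h2 := fst_inj hv (by omega) (by omega) h1
    omega
  obtain ⟨A, hA⟩ : ∃ A : ℤ, A = (n : ℤ) - u.length := ⟨_, rfl⟩
  have hA' : (A : ℝ) = (n : ℝ) - u.length := by rw [hA]; push_cast; ring
  have v1 : x p = sg a.2 * (A : ℝ) := by
    rw [hx, vec_at hv (p := u.length) (by omega) (by rw [g0, hp]), g0, hA']
  have v2 : x q = sg b.2 * ((A : ℝ) - 1) := by
    rw [hx, vec_at hv (p := u.length + 1) (by omega) (by rw [g1, hq]), g1, hA']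
    push_cast
    ring
  have v1' : x' p = sg a.2 * ((A : ℝ) - 1) := by
    rw [hx', vec_at hv' (p := u.length + 1) (by omega) (by rw [g1', hp]), g1', hA']
    push_cast
    ring
  have v2' : x' q = sg b.2 * (A : ℝ) := by
    rw [hx', vec_at hv' (p := u.length) (by omega) (by rw [g0', hq]), g0', hA']
  have hoth : ∀ i, i ≠ p → i ≠ q → x' i = x i := by
    intro i hip hiq
    obtain ⟨r, hr, hri⟩ := surj hv i
    have hr0 : r ≠ u.length := by
      rintro rfl
      apply hip
      apply Fin.ext
      rw [← hri, g0, hp]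
    have hr1 : r ≠ u.length + 1 := by
      rintro rfl
      apply hiq
      apply Fin.ext
      rw [← hri, g1, hq]
    have hr' : r < w'.length := by omega
    have hww : w'[r] = w[r] := by
      rcases Nat.lt_or_ge r u.length with h | h
      · simp only [hw, hw']
        rw [List.getElem_append_left h, List.getElem_append_left h]
      · obtain ⟨s, rfl⟩ : ∃ s, r = u.length + (s + 2) := ⟨r - u.length - 2, by omega⟩
        simp only [hw, hw']
        rw [List.getElem_append_right (by omega), List.getElem_append_right (by omega)]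
        simp
    rw [hx, hx', vec_at hv hr hri, vec_at hv' hr' (by rw [hww, hri]), hww]
  refine edge (by rw [hx]; exact vec_mem hv) (by rw [hx']; exact vec_mem hv') ?_ ?_
  · intro y hy i
    obtain ⟨z, hz⟩ := spv_int hy i
    by_cases hip : i = p
    · rw [hz, hip, v1, v1']
      exact consec z A a.2
    · by_cases hiq : i = q
      · rw [hz, hiq, v2, v2', mul_comm]
        exact consec z A b.2
      · rw [hoth i hip hiq]
        exact mul_self_nonneg _
  · intro y hy h
    have hsa : sg a.2 ^ 2 = 1 := by rcases sg_or a.2 with h | h <;> rw [h] <;> norm_num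
    have hsb : sg b.2 ^ 2 = 1 := by rcases sg_or b.2 with h | h <;> rw [h] <;> norm_num
    have hne := spv_inj hy hpq
    rcases h p with h1 | h1
    · rcases h q with h2 | h2
      · left
        funext i
        by_cases hip : i = p
        · rw [hip, h1]
        · by_cases hiq : i = q
          · rw [hiq, h2]
          · rcases h i with h3 | h3
            · exact h3
            · rw [h3, hoth i hip hiq]
      · exfalso
        apply hne
        rw [h1, h2, v1, v2', mul_pow, mul_pow, hsa, hsb]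
    · rcases h q with h2 | h2
      · exfalso
        apply hne
        rw [h1, h2, v1', v2, mul_pow, mul_pow, hsa, hsb]
      · right
        funext i
        by_cases hip : i = p
        · rw [hip, h1]
        · by_cases hiq : i = q
          · rw [hiq, h2]
          · rcases h i with h3 | h3
            · rw [h3, hoth i hip hiq]
            · exact h3

theorem edge_sign (u : List Letter) (a : Letter)
    (hv : Valid n (u ++ [a])) (hv' : Valid n (u ++ [ng a])) :
    IsFace (typeBPermutahedron n) (segment ℝ (vec n (u ++ [a])) (vec n (u ++ [ng a]))) := by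
  obtain ⟨x, hx⟩ : ∃ x, x = vec n (u ++ [a]) := ⟨_, rfl⟩
  obtain ⟨x', hx'⟩ : ∃ x', x' = vec n (u ++ [ng a]) := ⟨_, rfl⟩
  obtain ⟨w, hw⟩ : ∃ w, w = u ++ [a] := ⟨_, rfl⟩
  obtain ⟨w', hw'⟩ : ∃ w', w' = u ++ [ng a] := ⟨_, rfl⟩
  have hlen : w.length = u.length + 1 := by rw [hw]; simp
  have hlen' : w'.length = u.length + 1 := by rw [hw']; simp
  have g0 : w[u.length]'(by omega) = a := by simp [hw]
  have g0' : w'[u.length]'(by omega) = ng a := by simp [hw']
  rw [← hw] at hv
  rw [← hw'] at hv'
  rw [← hx, ← hx']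
  rw [← hw] at hx
  rw [← hw'] at hx'
  have hn : u.length + 1 = n := by rw [← hlen]; exact len hv
  have ha : a.1 < n := by rw [← g0]; exact lt_n hv (by omega)
  obtain ⟨p, hp⟩ : ∃ p : Fin n, (p : ℕ) = a.1 := ⟨⟨a.1, ha⟩, rfl⟩
  have hA' : (n : ℝ) - u.length = 1 := by
    have : (u.length : ℝ) + 1 = n := by exact_mod_cast hn
    linarith
  have v1 : x p = sg a.2 := by
    rw [hx, vec_at hv (p := u.length) (by omega) (by rw [g0, hp]), g0, hA', mul_one]
  have v1' : x' p = -sg a.2 := by
    rw [hx', vec_at hv' (p := u.length) (by omega) (by rw [g0', hp]; rfl), g0', hA', mul_one]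
    exact sg_not a.2
  have hoth : ∀ i, i ≠ p → x' i = x i := by
    intro i hip
    obtain ⟨r, hr, hri⟩ := surj hv i
    have hr0 : r ≠ u.length := by
      rintro rfl
      apply hip
      apply Fin.ext
      rw [← hri, g0, hp]
    have hr' : r < w'.length := by omega
    have hww : w'[r] = w[r] := by
      have h : r < u.length := by omega
      simp only [hw, hw']
      rw [List.getElem_append_left h, List.getElem_append_left h]
    rw [hx, hx', vec_at hv hr hri, vec_at hv' hr' (by rw [hww, hri]), hww]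
  have hsa : sg a.2 ^ 2 = 1 := by rcases sg_or a.2 with h | h <;> rw [h] <;> norm_num
  refine edge (by rw [hx]; exact vec_mem hv) (by rw [hx']; exact vec_mem hv') ?_ ?_
  · intro y hy i
    by_cases hip : i = p
    · have h1 := spv_one hy i
      rw [hip] at h1 ⊢
      rw [v1, v1']
      nlinarith
    · rw [hoth i hip]
      exact mul_self_nonneg _
  · intro y hy h
    rcases h p with h1 | h1
    · left
      funext i
      by_cases hip : i = p
      · rw [hip, h1]
      · rcases h i with h3 | h3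
        · exact h3
        · rw [h3, hoth i hip]
    · right
      funext i
      by_cases hip : i = p
      · rw [hip, h1]
      · rcases h i with h3 | h3
        · rw [h3, hoth i hip]
        · exact h3

end GA

/-- package GEOA -/
theorem t_GEOA : ∀ n : ℕ, 1 ≤ n →
    (∀ w, Valid n w → IsFace (typeBPermutahedron n) {vec n w}) ∧
    (∀ w w', Valid n w → Valid n w' → Adj w w' →
      IsFace (typeBPermutahedron n) (segment ℝ (vec n w) (vec n w'))) ∧
    (∀ w w', Valid n w → Valid n w' → vec n w = vec n w' → w = w') := by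
  intro n _
  refine ⟨fun w hw => ?_, fun w w' hw hw' h => ?_, fun w w' hw hw' h => GA.vec_inj hw hw' h⟩
  · have h := GA.edge (GA.vec_mem hw) (GA.vec_mem hw) (fun x _ i => mul_self_nonneg _)
      (fun x _ h => Or.inl (funext fun i => (h i).elim id id))
    rwa [segment_same] at h
  · rcases h with ⟨u, a, b, v, rfl, rfl⟩ | ⟨u, a, rfl, rfl⟩
    · exact GA.edge_swap u a b v hw hw'
    · exact GA.edge_sign u a hw hw'

end Pool.Agent.U542.FH
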