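import Mathlib
import Pool.Agent.U542.FH.Stm

/-!
# Package GEOB of project FH: the facets of the type B permutahedron

(written by helper810)
-/

set_option autoImplicit false

namespace Pool.Agent.U542.FH.GEOB

open Finset

/-- a signed permutation vector -/
noncomputable def vv {n : ℕ} (σ : Equiv.Perm (Fin n)) (ε : Fin n → ℤˣ) : Fin n → ℝ :=
  fun i => ((ε i : ℤ) : ℝ) * (((σ i : ℕ) : ℝ) + 1)

theorem vv_mem {n : ℕ} (σ : Equiv.Perm (Fin n)) (ε : Fin n → ℤˣ) :
    vv σ ε ∈ signedPermVectors n := ⟨σ, ε, fun _ => rfl⟩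

theorem vv_memP {n : ℕ} (σ : Equiv.Perm (Fin n)) (ε : Fin n → ℤˣ) :
    vv σ ε ∈ typeBPermutahedron n := subset_convexHull ℝ _ (vv_mem σ ε)

theorem exists_vv {n : ℕ} {v : Fin n → ℝ} (hv : v ∈ signedPermVectors n) :
    ∃ σ ε, v = vv σ ε := by
  obtain ⟨σ, ε, h⟩ := hv
  exact ⟨σ, ε, funext h⟩

theorem unit_cases (e : ℤˣ) : ((e : ℤ) : ℝ) = 1 ∨ ((e : ℤ) : ℝ) = -1 := by
  rcases Int.units_eq_one_or e with h | h <;> simp [h]

/-- the maximum over the vertices is the maximum over the polytope -/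
theorem le_of_vertices {n : ℕ} (l : StrongDual ℝ (Fin n → ℝ)) (c : ℝ)
    (h : ∀ σ ε, l (vv σ ε) ≤ c) : ∀ y ∈ typeBPermutahedron n, l y ≤ c := by
  intro y hy
  have h1 : typeBPermutahedron n ⊆ {x | l x ≤ c} := by
    refine convexHull_min ?_ (convex_halfSpace_le l.toLinearMap.isLinear c)
    intro v hv
    obtain ⟨σ, ε, rfl⟩ := exists_vv hv
    exact h σ ε
  exact h1 hy

theorem exists_max {n : ℕ} (l : StrongDual ℝ (Fin n → ℝ)) :
    ∃ σ ε, ∀ σ' ε', l (vv σ' ε') ≤ l (vv (n := n) σ ε) := by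
  obtain ⟨p, -, hp⟩ := Finset.exists_max_image
    (Finset.univ : Finset (Equiv.Perm (Fin n) × (Fin n → ℤˣ)))
    (fun p => l (vv p.1 p.2)) ⟨(1, 1), Finset.mem_univ _⟩
  exact ⟨p.1, p.2, fun σ' ε' => hp (σ', ε') (Finset.mem_univ _)⟩

/-- passing from the vertices of a face to the face -/
theorem face_lemma {n : ℕ} (l g : StrongDual ℝ (Fin n → ℝ)) (c M : ℝ)
    (h1 : ∀ σ ε, l (vv σ ε) ≤ c) (h2 : ∀ σ ε, l (vv σ ε) = c → M ≤ g (vv (n := n) σ ε)) :
    ∀ x ∈ typeBPermutahedron n, l x = c → M ≤ g x := by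
  classical
  -- the constant
  have h3 : ∃ lam : ℝ, ∀ σ ε, M ≤ g (vv σ ε) + lam * (c - l (vv (n := n) σ ε)) := by
    obtain ⟨p, -, hp⟩ := Finset.exists_max_image
      (Finset.univ : Finset (Equiv.Perm (Fin n) × (Fin n → ℤˣ)))
      (fun p => |M - g (vv p.1 p.2)| / (c - l (vv p.1 p.2))) ⟨(1, 1), Finset.mem_univ _⟩
    refine ⟨|M - g (vv p.1 p.2)| / (c - l (vv p.1 p.2)), fun σ ε => ?_⟩
    rcases eq_or_lt_of_le (h1 σ ε) with h | h
    · rw [h, sub_self, mul_zero, add_zero]
      exact h2 σ ε h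
    · have h4 := hp (σ, ε) (Finset.mem_univ _)
      have h5 : 0 < c - l (vv σ ε) := sub_pos.2 h
      rw [div_le_iff₀ h5] at h4
      have h6 := le_abs_self (M - g (vv σ ε))
      simp only at h4
      linarith
  obtain ⟨lam, hlam⟩ := h3
  intro x hx hlx
  have h4 : typeBPermutahedron n ⊆ {x | (lam • l - g) x ≤ lam * c - M} := by
    refine convexHull_min ?_ (convex_halfSpace_le (lam • l - g).toLinearMap.isLinear _)
    intro v hv
    obtain ⟨σ, ε, rfl⟩ := exists_vv hv
    have h5 := hlam σ ε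
    change lam * l (vv σ ε) - g (vv σ ε) ≤ lam * c - M
    linarith
  have h5 : lam * l x - g x ≤ lam * c - M := h4 hx
  rw [hlx] at h5
  linarith

theorem single_val {n : ℕ} (l : StrongDual ℝ (Fin n → ℝ)) (i : Fin n) (c : ℝ) :
    l (Pi.single i c) = c * l (Pi.single i 1) := by
  have h1 : (Pi.single i c : Fin n → ℝ) = c • (Pi.single i 1 : Fin n → ℝ) := by
    rw [← Pi.single_smul, smul_eq_mul, mul_one]
  rw [h1, map_smul, smul_eq_mul]

/-- first exchange: signs -/
theorem ex1 {n : ℕ} (l : StrongDual ℝ (Fin n → ℝ)) (σ : Equiv.Perm (Fin n)) (ε : Fin n → ℤˣ)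
    (h : ∀ σ' ε', l (vv σ' ε') ≤ l (vv σ ε)) (i : Fin n) :
    0 ≤ ((ε i : ℤ) : ℝ) * l (Pi.single i 1) := by
  classical
  have h1 : vv σ (Function.update ε i (-ε i)) = vv σ ε +
      Pi.single i (-2 * ((ε i : ℤ) : ℝ) * (((σ i : ℕ) : ℝ) + 1)) := by
    funext k
    by_cases hk : k = i
    · subst hk
      simp only [vv, Function.update_self, Pi.add_apply, Pi.single_eq_same]
      push_cast
      ring
    · simp only [vv, Function.update_of_ne hk, Pi.add_apply, Pi.single_eq_of_ne hk, add_zero]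
  have h2 := h σ (Function.update ε i (-ε i))
  rw [h1, map_add, single_val] at h2
  have h3 : (0 : ℝ) < ((σ i : ℕ) : ℝ) + 1 := by positivity
  by_contra hcon
  push Not at hcon
  nlinarith

/-- second exchange: absolute values -/
theorem ex2 {n : ℕ} (l : StrongDual ℝ (Fin n → ℝ)) (σ : Equiv.Perm (Fin n)) (ε : Fin n → ℤˣ)
    (h : ∀ σ' ε', l (vv σ' ε') ≤ l (vv σ ε)) (i k : Fin n) (hik : σ i < σ k) :
    ((ε i : ℤ) : ℝ) * l (Pi.single i 1) ≤ ((ε k : ℤ) : ℝ) * l (Pi.single k 1) := by
  classical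
  have hne : i ≠ k := by
    rintro rfl
    exact lt_irrefl _ hik
  have h1 : vv ((Equiv.swap i k).trans σ) ε = vv σ ε +
      Pi.single i (((ε i : ℤ) : ℝ) * (((σ k : ℕ) : ℝ) - ((σ i : ℕ) : ℝ))) +
      Pi.single k (((ε k : ℤ) : ℝ) * (((σ i : ℕ) : ℝ) - ((σ k : ℕ) : ℝ))) := by
    funext m
    by_cases hm : m = i
    · subst hm
      simp only [vv, Pi.add_apply, Pi.single_eq_same, Pi.single_eq_of_ne hne, add_zero,
        Equiv.trans_apply, Equiv.swap_apply_left]
      ring
    · by_cases hm' : m = k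
      · subst hm'
        simp only [vv, Pi.add_apply, Pi.single_eq_same, Pi.single_eq_of_ne hm, add_zero,
          Equiv.trans_apply, Equiv.swap_apply_right]
        ring
      · simp only [vv, Pi.add_apply, Pi.single_eq_of_ne hm, Pi.single_eq_of_ne hm', add_zero,
          Equiv.trans_apply, Equiv.swap_apply_of_ne_of_ne hm hm']
  have h2 := h ((Equiv.swap i k).trans σ) ε
  rw [h1, map_add, map_add, single_val, single_val l k] at h2
  have h3 : (0 : ℝ) < ((σ k : ℕ) : ℝ) - ((σ i : ℕ) : ℝ) := by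
    have : ((σ i : ℕ) : ℝ) < ((σ k : ℕ) : ℝ) := by exact_mod_cast hik
    linarith
  by_contra hcon
  push Not at hcon
  nlinarith

/-- the real sign attached to a Boolean -/
def sg (b : Bool) : ℝ := if b then 1 else -1

/-- the absolute values on `S` are the top ones, with the signs `s` -/
def Top {n : ℕ} (S : Finset (Fin n)) (s : Fin n → Bool) (σ : Equiv.Perm (Fin n))
    (ε : Fin n → ℤˣ) : Prop :=
  (∀ i ∈ S, ((ε i : ℤ) : ℝ) = sg (s i)) ∧ ∀ i ∈ S, ∀ k, k ∉ S → σ k < σ i

theorem upper_eq {n : ℕ} (S T : Finset (Fin n)) (hc : S.card = T.card)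
    (hS : ∀ i ∈ S, ∀ k, k ∉ S → k < i) (hT : ∀ i ∈ T, ∀ k, k ∉ T → k < i) : S = T := by
  by_contra hne
  have h1 : ¬ S ⊆ T := fun h => hne (Finset.eq_of_subset_of_card_le h hc.ge)
  have h2 : ¬ T ⊆ S := fun h => hne (Finset.eq_of_subset_of_card_le h hc.le).symm
  obtain ⟨i, hiS, hiT⟩ := Finset.not_subset.1 h1
  obtain ⟨k, hkT, hkS⟩ := Finset.not_subset.1 h2
  exact lt_asymm (hS i hiS k hkS) (hT k hkT i hiT)

/-- the functional of a set of letters -/
noncomputable def gg {n : ℕ} (S : Finset (Fin n)) (s : Fin n → Bool) :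
    StrongDual ℝ (Fin n → ℝ) := ∑ i ∈ S, sg (s i) • ContinuousLinearMap.proj i

theorem gg_apply {n : ℕ} (S : Finset (Fin n)) (s : Fin n → Bool) (x : Fin n → ℝ) :
    gg S s x = ∑ i ∈ S, sg (s i) * x i := by
  unfold gg
  rw [ContinuousLinearMap.sum_apply]
  rfl

theorem sg_mul_self (b : Bool) : sg b * sg b = 1 := by
  cases b <;> simp [sg]

theorem gg_top {n : ℕ} (S : Finset (Fin n)) (s : Fin n → Bool) (σ : Equiv.Perm (Fin n))
    (ε : Fin n → ℤˣ) (h : Top S s σ ε) :
    gg S s (vv σ ε) = ∑ t ∈ S.map σ.toEmbedding, (((t : ℕ) : ℝ) + 1) := by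
  rw [gg_apply, Finset.sum_map]
  refine Finset.sum_congr rfl fun i hi => ?_
  unfold vv
  rw [h.1 i hi, ← mul_assoc, sg_mul_self, one_mul]
  rfl

theorem top_eq {n : ℕ} (S : Finset (Fin n)) (s : Fin n → Bool) (σ σ' : Equiv.Perm (Fin n))
    (ε ε' : Fin n → ℤˣ) (h : Top S s σ ε) (h' : Top S s σ' ε') :
    gg S s (vv σ ε) = gg S s (vv σ' ε') := by
  have key : ∀ (τ : Equiv.Perm (Fin n)) (δ : Fin n → ℤˣ), Top S s τ δ →
      ∀ i ∈ S.map τ.toEmbedding, ∀ k, k ∉ S.map τ.toEmbedding → k < i := by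
    intro τ δ hτ i hi k hk
    obtain ⟨i', hi', rfl⟩ := Finset.mem_map.1 hi
    have h1 := hτ.2 i' hi' (τ.symm k) (fun h2 => hk (Finset.mem_map.2 ⟨_, h2, by simp⟩))
    rw [τ.apply_symm_apply] at h1
    exact h1
  rw [gg_top S s σ ε h, gg_top S s σ' ε' h', upper_eq (S.map σ.toEmbedding)
    (S.map σ'.toEmbedding) (by rw [Finset.card_map, Finset.card_map]) (key σ ε h) (key σ' ε' h')]

theorem gg_single {n : ℕ} (S : Finset (Fin n)) (s : Fin n → Bool) (i : Fin n) :
    gg S s (Pi.single i 1) = if i ∈ S then sg (s i) else 0 := by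
  classical
  rw [gg_apply]
  simp [Pi.single_apply]

theorem sign_lemma (e : ℝ) (he : e = 1 ∨ e = -1) (b : Bool) (h : 0 ≤ e * sg b) : e = sg b := by
  have h0 : sg false = -1 := by simp [sg]
  have h1 : sg true = 1 := by simp [sg]
  cases b
  · rw [h0] at h ⊢
    rcases he with he | he
    · rw [he] at h
      norm_num at h
    · exact he
  · rw [h1] at h ⊢
    rcases he with he | he
    · exact he
    · rw [he] at h
      norm_num at h

theorem top_of_max {n : ℕ} (S : Finset (Fin n)) (s : Fin n → Bool) (σ : Equiv.Perm (Fin n))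
    (ε : Fin n → ℤˣ) (h : ∀ σ' ε', gg S s (vv σ' ε') ≤ gg S s (vv σ ε)) : Top S s σ ε := by
  classical
  have h0 : ∀ i ∈ S, ((ε i : ℤ) : ℝ) = sg (s i) := by
    intro i hi
    have h1 := ex1 (gg S s) σ ε h i
    rw [gg_single, if_pos hi] at h1
    exact sign_lemma _ (unit_cases (ε i)) _ h1
  refine ⟨h0, fun i hi k hk => ?_⟩
  by_contra hcon
  have hne : σ i ≠ σ k := by
    intro h1
    have h2 := σ.injective h1
    subst h2
    exact hk hi
  have h1 := ex2 (gg S s) σ ε h i k (lt_of_le_of_ne (not_lt.1 hcon) hne)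
  rw [gg_single, gg_single, if_pos hi, if_neg hk, h0 i hi, sg_mul_self] at h1
  linarith

/-! ### words -/

/-- the letters of a valid word -/
theorem letter_mem {n : ℕ} {w : List Letter} (hw : Valid n w) (i : Fin n) :
    ((i : ℕ), decide (((i : ℕ), true) ∈ w)) ∈ w := by
  have h1 : (i : ℕ) ∈ w.map Prod.fst := hw.mem_iff.2 (List.mem_range.2 i.2)
  obtain ⟨⟨a, e⟩, ha, hae⟩ := List.mem_map.1 h1
  simp only at hae
  subst hae
  by_cases h2 : ((i : ℕ), true) ∈ w
  · simp [h2]
  · cases e with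
    | true => exact absurd ha h2
    | false => simpa [h2] using ha

theorem nodup_fst {n : ℕ} {w : List Letter} (hw : Valid n w) : (w.map Prod.fst).Nodup :=
  hw.nodup_iff.2 List.nodup_range

theorem letter_unique {n : ℕ} {w : List Letter} (hw : Valid n w) {a b : Letter} (ha : a ∈ w)
    (hb : b ∈ w) (h : a.1 = b.1) : a = b :=
  List.inj_on_of_nodup_map (nodup_fst hw) ha hb h

theorem length_eq {n : ℕ} {w : List Letter} (hw : Valid n w) : w.length = n := by
  have h1 := hw.length_eq
  rwa [List.length_map, List.length_range] at h1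

/-- the letter of `i` -/
noncomputable def lt {n : ℕ} (w : List Letter) (i : Fin n) : Letter :=
  ((i : ℕ), decide (((i : ℕ), true) ∈ w))

theorem exists_repr {n : ℕ} {w : List Letter} (hw : Valid n w) :
    ∃ (σ : Equiv.Perm (Fin n)) (ε : Fin n → ℤˣ), vec n w = vv σ ε ∧
      (∀ i, (σ i : ℕ) + 1 + w.idxOf (lt w i) = n) ∧
      ∀ i, ((ε i : ℤ) : ℝ) = sg (lt w i).2 := by
  classical
  have hp : ∀ i : Fin n, w.idxOf (lt w i) < n := by
    intro i
    have h1 := List.idxOf_lt_length_of_mem (letter_mem hw i)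
    rw [length_eq hw] at h1
    exact h1
  let f : Fin n → Fin n := fun i => ⟨n - 1 - w.idxOf (lt w i), by have := hp i; omega⟩
  have hf : Function.Injective f := by
    intro i k hik
    have h1 : n - 1 - w.idxOf (lt w i) = n - 1 - w.idxOf (lt w k) := congrArg Fin.val hik
    have h2 : w.idxOf (lt w i) = w.idxOf (lt w k) := by
      have := hp i
      have := hp k
      omega
    have h3 := (List.idxOf_inj (letter_mem hw i)).1 h2
    exact Fin.ext (congrArg Prod.fst h3)
  let σ : Equiv.Perm (Fin n) := Equiv.ofBijective f (Finite.injective_iff_bijective.1 hf)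
  refine ⟨σ, fun i => if ((i : ℕ), true) ∈ w then 1 else -1, ?_, ?_, ?_⟩
  · funext i
    have h1 : ((σ i : ℕ) : ℝ) + 1 = (n : ℝ) - (w.idxOf (lt w i) : ℝ) := by
      have h2 : (σ i : ℕ) + 1 + w.idxOf (lt w i) = n := by
        change n - 1 - w.idxOf (lt w i) + 1 + w.idxOf (lt w i) = n
        have := hp i
        omega
      have h3 : ((σ i : ℕ) : ℝ) + 1 + (w.idxOf (lt w i) : ℝ) = n := by exact_mod_cast h2
      linarith
    unfold vec vv
    rw [h1]
    by_cases h2 : ((i : ℕ), true) ∈ w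
    · simp [h2, lt]
    · simp [h2, lt]
  · intro i
    change n - 1 - w.idxOf (lt w i) + 1 + w.idxOf (lt w i) = n
    have := hp i
    omega
  · intro i
    by_cases h2 : ((i : ℕ), true) ∈ w
    · simp [h2, lt, sg]
    · simp [h2, lt, sg]

/-- the set of letters of `S` with the signs `s` -/
def letters {n : ℕ} (S : Finset (Fin n)) (s : Fin n → Bool) : Finset Letter :=
  S.image fun i : Fin n => ((i : ℕ), s i)

theorem card_letters {n : ℕ} (S : Finset (Fin n)) (s : Fin n → Bool) :
    (letters S s).card = S.card := by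
  unfold letters
  refine Finset.card_image_of_injective _ fun i k h => ?_
  exact Fin.ext (congrArg Prod.fst h)

theorem nodup_w {n : ℕ} {w : List Letter} (hw : Valid n w) : w.Nodup :=
  List.Nodup.of_map _ (nodup_fst hw)

theorem card_pre {n : ℕ} {w : List Letter} (hw : Valid n w) {j : ℕ} (hj : j ≤ n) :
    (pre w j).card = j := by
  unfold pre
  rw [List.toFinset_card_of_nodup ((nodup_w hw).sublist (List.take_sublist _ _)),
    List.length_take, length_eq hw]
  omega

theorem sg_inj {a b : Bool} (h : sg a = sg b) : a = b := by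
  cases a <;> cases b <;> simp [sg] at h ⊢ <;> linarith

theorem top_iff {n : ℕ} {w : List Letter} (hw : Valid n w) (S : Finset (Fin n))
    (s : Fin n → Bool) (σ : Equiv.Perm (Fin n)) (ε : Fin n → ℤˣ)
    (h1 : ∀ i, (σ i : ℕ) + 1 + w.idxOf (lt w i) = n)
    (h2 : ∀ i, ((ε i : ℤ) : ℝ) = sg (lt w i).2) :
    Top S s σ ε ↔ pre w S.card = letters S s := by
  classical
  have hjn : S.card ≤ n := by simpa using Finset.card_le_univ S
  have hlt : ∀ i : Fin n, lt w i ∈ w := fun i => letter_mem hw i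
  have hpre : ∀ i : Fin n, lt w i ∈ pre w S.card ↔ w.idxOf (lt w i) < S.card := by
    intro i
    unfold pre
    rw [List.mem_toFinset, List.mem_take_iff_idxOf_lt (hlt i)]
  have hof : ∀ a ∈ w, ∃ i : Fin n, a = lt w i := by
    intro a ha
    have h3 : a.1 ∈ w.map Prod.fst := List.mem_map.2 ⟨a, ha, rfl⟩
    have h4 : a.1 < n := List.mem_range.1 (hw.mem_iff.1 h3)
    exact ⟨⟨a.1, h4⟩, letter_unique hw ha (hlt ⟨a.1, h4⟩) rfl⟩
  constructor
  · intro hT
    by_cases hall : ∀ i ∈ S, w.idxOf (lt w i) < S.card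
    · symm
      refine Finset.eq_of_subset_of_card_le ?_ ?_
      · intro a ha
        obtain ⟨i, hi, rfl⟩ := Finset.mem_image.1 ha
        have h3 : (lt w i).2 = s i := sg_inj ((h2 i).symm.trans (hT.1 i hi))
        have h4 : ((i : ℕ), s i) = lt w i := Prod.ext rfl h3.symm
        rw [h4]
        exact (hpre i).2 (hall i hi)
      · rw [card_letters, card_pre hw hjn]
    · push Not at hall
      obtain ⟨i, hi, hip⟩ := hall
      refine Finset.eq_of_subset_of_card_le ?_ ?_
      · intro a ha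
        have ha' : a ∈ w := by
          unfold pre at ha
          exact List.mem_of_mem_take (List.mem_toFinset.1 ha)
        obtain ⟨k, rfl⟩ := hof a ha'
        have h3 := (hpre k).1 ha
        have hk : k ∈ S := by
          by_contra hk
          have h4 : σ k < σ i := hT.2 i hi k hk
          have h5 := h1 i
          have h6 := h1 k
          have h7 : (σ k : ℕ) < σ i := h4
          omega
        have h4 : (lt w k).2 = s k := sg_inj ((h2 k).symm.trans (hT.1 k hk))
        exact Finset.mem_image.2 ⟨k, hk, Prod.ext rfl h4.symm⟩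
      · rw [card_letters, card_pre hw hjn]
  · intro hE
    have h3 : ∀ i ∈ S, lt w i = ((i : ℕ), s i) ∧ w.idxOf (lt w i) < S.card := by
      intro i hi
      have h4 : ((i : ℕ), s i) ∈ pre w S.card := by
        rw [hE]
        exact Finset.mem_image.2 ⟨i, hi, rfl⟩
      have h5 : ((i : ℕ), s i) ∈ w := by
        unfold pre at h4
        exact List.mem_of_mem_take (List.mem_toFinset.1 h4)
      have h6 : lt w i = ((i : ℕ), s i) := letter_unique hw (hlt i) h5 rfl
      refine ⟨h6, ?_⟩
      rw [← h6] at h4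
      exact (hpre i).1 h4
    refine ⟨fun i hi => ?_, fun i hi k hk => ?_⟩
    · rw [h2 i, (h3 i hi).1]
    · have h4 := (h3 i hi).2
      have h5 : ¬ w.idxOf (lt w k) < S.card := by
        intro h6
        have h7 := (hpre k).2 h6
        rw [hE] at h7
        obtain ⟨k', hk', hkk⟩ := Finset.mem_image.1 h7
        have h8 : k' = k := Fin.ext (congrArg Prod.fst hkk)
        exact hk (h8 ▸ hk')
      have h6 := h1 i
      have h7 := h1 k
      change (σ k : ℕ) < σ i
      omega

/-- a word with a given first set of letters -/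
theorem exists_word {n : ℕ} (S : Finset (Fin n)) (s : Fin n → Bool) :
    ∃ w, Valid n w ∧ pre w S.card = letters S s := by
  classical
  refine ⟨(S.toList.map fun i : Fin n => ((i : ℕ), s i)) ++
    (Sᶜ.toList.map fun i : Fin n => ((i : ℕ), true)),
    ?_, ?_⟩
  · unfold Valid
    rw [List.map_append, List.map_map, List.map_map]
    have h1 : (S.toList.map (Prod.fst ∘ fun i : Fin n => ((i : ℕ), s i))) ++
        (Sᶜ.toList.map (Prod.fst ∘ fun i : Fin n => ((i : ℕ), true))) =
        (S.toList ++ Sᶜ.toList).map (fun i : Fin n => (i : ℕ)) := by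
      rw [List.map_append]
      rfl
    rw [h1]
    have h2 : (S.toList ++ Sᶜ.toList).Nodup := by
      rw [List.nodup_append]
      refine ⟨S.nodup_toList, Sᶜ.nodup_toList, ?_⟩
      intro a ha b hb hab
      subst hab
      rw [Finset.mem_toList] at ha hb
      exact (Finset.mem_compl.1 hb) ha
    rw [List.perm_ext_iff_of_nodup (h2.map Fin.val_injective) List.nodup_range]
    intro a
    rw [List.mem_map, List.mem_range]
    constructor
    · rintro ⟨i, -, rfl⟩
      exact i.2
    · intro ha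
      refine ⟨⟨a, ha⟩, ?_, rfl⟩
      rw [List.mem_append, Finset.mem_toList, Finset.mem_toList, Finset.mem_compl]
      exact em _
  · unfold pre letters
    rw [List.take_left' (by rw [List.length_map, Finset.length_toList])]
    ext a
    simp

theorem dual_ext {n : ℕ} (l : StrongDual ℝ (Fin n → ℝ)) (h : ∀ i, l (Pi.single i 1) = 0)
    (x : Fin n → ℝ) : l x = 0 := by
  classical
  have h1 : x = ∑ i, Pi.single i (x i) := (Finset.univ_sum_single x).symm
  rw [h1, map_sum]
  refine Finset.sum_eq_zero fun i _ => ?_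
  rw [single_val, h i, mul_zero]

end Pool.Agent.U542.FH.GEOB

namespace Pool.Agent.U542.FH

open GEOB

/-- package GEOB: the last part of `S_GEO` -/
theorem t_GEOB : ∀ n : ℕ, 1 ≤ n → ∀ F, IsFacet (typeBPermutahedron n) F →
    ∃ w j, Valid n w ∧ 1 ≤ j ∧ j ≤ n ∧
      ∀ w', Valid n w' → (vec n w' ∈ F ↔ pre w' j = pre w j) := by
  classical
  intro n hn F hF
  obtain ⟨⟨hFne, hFexp⟩, hFP, hmax⟩ := hF
  obtain ⟨l, hl⟩ := hFexp hFne
  obtain ⟨x0, hx0⟩ := hFne
  have hx0' := hx0
  rw [hl] at hx0'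
  obtain ⟨hx0P, hx0max⟩ := hx0'
  set c : ℝ := l x0 with hc
  have hlc : ∀ σ ε, l (vv (n := n) σ ε) ≤ c := fun σ ε => hx0max _ (vv_memP σ ε)
  -- the largest coefficient
  have : Nonempty (Fin n) := ⟨⟨0, hn⟩⟩
  obtain ⟨i0, -, hi0⟩ := Finset.exists_max_image (Finset.univ : Finset (Fin n))
    (fun i => |l (Pi.single i 1)|) Finset.univ_nonempty
  have hpos : 0 < |l (Pi.single i0 1)| := by
    rcases eq_or_lt_of_le (abs_nonneg (l (Pi.single i0 1))) with h | h
    · exfalso
      apply hFP
      have h1 : ∀ i, l (Pi.single i 1) = 0 := by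
        intro i
        have h2 := hi0 i (Finset.mem_univ _)
        rw [← h] at h2
        exact abs_nonpos_iff.1 h2
      rw [hl]
      ext x
      constructor
      · exact fun hx => hx.1
      · refine fun hx => ⟨hx, fun y _ => ?_⟩
        rw [dual_ext l h1 y, dual_ext l h1 x]
    · exact h
  set S : Finset (Fin n) := Finset.univ.filter
    (fun i => |l (Pi.single i0 1)| ≤ |l (Pi.single i 1)|) with hS
  have hmemS : ∀ i, i ∈ S ↔ |l (Pi.single i0 1)| ≤ |l (Pi.single i 1)| := by
    intro i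
    rw [hS, Finset.mem_filter]
    exact ⟨fun h => h.2, fun h => ⟨Finset.mem_univ _, h⟩⟩
  set s : Fin n → Bool := fun i => decide (0 < l (Pi.single i 1)) with hs
  have hi0S : i0 ∈ S := (hmemS i0).2 le_rfl
  have hSpos : 1 ≤ S.card := Finset.card_pos.2 ⟨i0, hi0S⟩
  have hSn : S.card ≤ n := by simpa using Finset.card_le_univ S
  -- the vertices of `F` are top
  have hTop : ∀ σ ε, l (vv (n := n) σ ε) = c → Top S s σ ε := by
    intro σ ε hσ
    have hm : ∀ σ' ε', l (vv σ' ε') ≤ l (vv σ ε) := fun σ' ε' => (hlc σ' ε').trans hσ.ge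
    have e1 := ex1 l σ ε hm
    have e2 := ex2 l σ ε hm
    have habs : ∀ i, ((ε i : ℤ) : ℝ) * l (Pi.single i 1) = |l (Pi.single i 1)| := by
      intro i
      have h1 := e1 i
      have h2 : |((ε i : ℤ) : ℝ) * l (Pi.single i 1)| = |l (Pi.single i 1)| := by
        rw [abs_mul]
        rcases unit_cases (ε i) with h | h <;> rw [h] <;> simp
      rw [← h2, abs_of_nonneg h1]
    refine ⟨fun i hi => ?_, fun i hi k hk => ?_⟩
    · have h1 := (hmemS i).1 hi
      have h2 := habs i
      have h3 : l (Pi.single i 1) ≠ 0 := by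
        intro h4
        rw [h4, abs_zero] at h1
        linarith
      rcases lt_or_gt_of_ne h3 with h4 | h4
      · have h5 : s i = false := by
          rw [hs]
          simpa using h4.le
        rw [h5]
        rcases unit_cases (ε i) with h | h
        · exfalso
          rw [h, abs_of_neg h4] at h2
          linarith
        · rw [h]
          simp [sg]
      · have h5 : s i = true := by
          rw [hs]
          simpa using h4
        rw [h5]
        rcases unit_cases (ε i) with h | h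
        · rw [h]
          simp [sg]
        · exfalso
          rw [h, abs_of_pos h4] at h2
          linarith
    · by_contra hcon
      have hne : σ i ≠ σ k := by
        intro h1
        have h2 := σ.injective h1
        subst h2
        exact hk hi
      have h1 := e2 i k (lt_of_le_of_ne (not_lt.1 hcon) hne)
      rw [habs i, habs k] at h1
      exact hk ((hmemS k).2 (((hmemS i).1 hi).trans h1))
  -- the face `G`
  obtain ⟨σm, εm, hgm⟩ := exists_max (gg S s)
  set M : ℝ := gg S s (vv σm εm) with hM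
  have hTm : Top S s σm εm := top_of_max S s σm εm hgm
  have hgP : ∀ y ∈ typeBPermutahedron n, gg S s y ≤ M := le_of_vertices (gg S s) M hgm
  set G : Set (Fin n → ℝ) := {x | x ∈ typeBPermutahedron n ∧
    ∀ y ∈ typeBPermutahedron n, gg S s y ≤ gg S s x} with hG
  have hmG : vv σm εm ∈ G := ⟨vv_memP _ _, hgP⟩
  have hGface : IsFace (typeBPermutahedron n) G := ⟨⟨_, hmG⟩, fun _ => ⟨gg S s, rfl⟩⟩
  have hGP : G ≠ typeBPermutahedron n := by
    intro h
    have h1 : vv σm (-εm) ∈ G := by
      rw [h]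
      exact vv_memP _ _
    have h2 := h1.2 _ (vv_memP σm εm)
    have h3 : vv σm (-εm) = - vv σm εm := by
      funext i
      simp [vv]
    rw [h3, map_neg, gg_top S s σm εm hTm] at h2
    have h4 : 0 < ∑ t ∈ S.map σm.toEmbedding, (((t : ℕ) : ℝ) + 1) := by
      refine Finset.sum_pos (fun t _ => by positivity) ?_
      exact ⟨σm i0, Finset.mem_map.2 ⟨i0, hi0S, rfl⟩⟩
    linarith
  have hFG : F ⊆ G := by
    intro x hx
    rw [hl] at hx
    obtain ⟨hxP, hxmax⟩ := hx
    have hlx : l x = c := le_antisymm (hx0max x hxP) (hxmax x0 hx0P)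
    have h1 : M ≤ gg S s x := by
      refine face_lemma l (gg S s) c M hlc (fun σ ε h => ?_) x hxP hlx
      exact (top_eq S s σm σ εm ε hTm (hTop σ ε h)).le
    exact ⟨hxP, fun y hy => (hgP y hy).trans h1⟩
  have hFG' : F = G := hmax G hGface hGP hFG
  obtain ⟨w, hw, hpw⟩ := exists_word S s
  refine ⟨w, S.card, hw, hSpos, hSn, fun w' hw' => ?_⟩
  obtain ⟨σ, ε, hv, h1, h2⟩ := exists_repr hw'
  rw [hpw, ← top_iff hw' S s σ ε h1 h2, hFG', hv]
  constructor
  · intro h
    refine top_of_max S s σ ε fun σ' ε' => h.2 _ (vv_memP _ _)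
  · intro h
    refine ⟨vv_memP _ _, fun y hy => (hgP y hy).trans ?_⟩
    exact (top_eq S s σm σ εm ε hTm h).le

end Pool.Agent.U542.FH
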