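import Pool.Agent.U542.FH.Ind4
import Pool.Agent.U542.FH.PkgCYC
import Pool.Agent.U542.FH.PkgGEOA
import Pool.Agent.U542.FH.PkgGEOB

namespace Pool.Agent.U542.FH

theorem t_GEO : S_GEO := by
  intro n hn
  obtain ⟨h1, h2, h3⟩ := t_GEOA n hn
  exact ⟨h1, h2, h3, t_GEOB n hn⟩

theorem t_FIN : S_FIN := assembly t_GEO (t_CYC t_IND)

end Pool.Agent.U542.FH
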