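import Pool.Agent.U542.FH.Stm

namespace Pool.Agent.U542.FH

open Finset

abbrev Cell := ℕ × Finset Letter

/-- kinds: `0` flip below the marker, `1` flip above the marker, `2` marker up, `3` marker down;
then the old and the new cell -/
abbrev Stp := ℕ × Cell × Cell

def cel (w : List Letter) : Cell := (w.length, w.toFinset)

inductive Step : List Letter × ℕ → List Letter × ℕ → Stp → Prop
  | swapL (u : List Letter) (a b : Letter) (v : List Letter) (i : ℕ) (h : u.length + 1 < i) :
      Step (u ++ a :: b :: v, i) (u ++ b :: a :: v, i) (0, cel (u ++ [a]), cel (u ++ [b]))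
  | swapH (u : List Letter) (a b : Letter) (v : List Letter) (i : ℕ) (h : i < u.length + 1) :
      Step (u ++ a :: b :: v, i) (u ++ b :: a :: v, i) (1, cel (u ++ [a]), cel (u ++ [b]))
  | sign (u : List Letter) (a : Letter) (i : ℕ) (h : i < u.length + 1) :
      Step (u ++ [a], i) (u ++ [ng a], i) (1, cel (u ++ [a]), cel (u ++ [ng a]))
  | up (u : List Letter) (x : Letter) (v : List Letter) (i : ℕ) (h : i = u.length) :
      Step (u ++ x :: v, i) (u ++ x :: v, i + 1) (2, cel u, cel (u ++ [x]))
  | down (u : List Letter) (x : Letter) (v : List Letter) (i : ℕ) (h : i = u.length) :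
      Step (u ++ x :: v, i + 1) (u ++ x :: v, i) (3, cel (u ++ [x]), cel u)

inductive Walk : List Letter × ℕ → List Letter × ℕ → List Stp → Prop
  | nil (X) : Walk X X []
  | cons {X Y Z : List Letter × ℕ} {s : Stp} {tr : List Stp} (h : Step X Y s) (t : Walk Y Z tr) :
      Walk X Z (s :: tr)

theorem Walk.append {X Y Z : List Letter × ℕ} {t t' : List Stp} (h : Walk X Y t)
    (h' : Walk Y Z t') : Walk X Z (t ++ t') := by
  induction h with
  | nil X => simpa using h'
  | cons h _ ih => exact Walk.cons h (ih h')

theorem Walk.one {X Y : List Letter × ℕ} {s : Stp} (h : Step X Y s) : Walk X Y [s] :=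
  Walk.cons h (Walk.nil _)

def fr (k : ℕ) : List Stp → Multiset Cell
  | [] => 0
  | s :: tr => (if s.1 = k then {s.2.1} else 0) + fr k tr

def too (k : ℕ) : List Stp → Multiset Cell
  | [] => 0
  | s :: tr => (if s.1 = k then {s.2.2} else 0) + too k tr

theorem fr_append (k : ℕ) (t t' : List Stp) : fr k (t ++ t') = fr k t + fr k t' := by
  induction t with
  | nil => simp [fr]
  | cons s t ih => simp [fr, ih, add_assoc]

theorem too_append (k : ℕ) (t t' : List Stp) : too k (t ++ t') = too k t + too k t' := by
  induction t with
  | nil => simp [too]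
  | cons s t ih => simp [too, ih, add_assoc]

/-- adding a letter to a cell -/
def pA (a : Letter) (c : Cell) : Cell := (c.1 + 1, insert a c.2)

def mapA (a : Letter) (s : Stp) : Stp := (s.1, pA a s.2.1, pA a s.2.2)

theorem fr_mapA (k : ℕ) (a : Letter) (t : List Stp) :
    fr k (t.map (mapA a)) = (fr k t).map (pA a) := by
  induction t with
  | nil => simp [fr]
  | cons s t ih =>
    rw [List.map_cons, fr, fr, ih, Multiset.map_add]
    by_cases hk : s.1 = k <;> simp [mapA, hk]

theorem too_mapA (k : ℕ) (a : Letter) (t : List Stp) :
    too k (t.map (mapA a)) = (too k t).map (pA a) := by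
  induction t with
  | nil => simp [too]
  | cons s t ih =>
    rw [List.map_cons, too, too, ih, Multiset.map_add]
    by_cases hk : s.1 = k <;> simp [mapA, hk]

theorem cel_cons (a : Letter) (u : List Letter) : cel (a :: u) = pA a (cel u) := by
  simp [cel, pA]

theorem cel_snoc (a : Letter) (u : List Letter) : cel (u ++ [a]) = pA a (cel u) := by
  refine Prod.ext (by simp [cel, pA]) ?_
  ext y
  simp [cel, pA, or_comm]

/-- phase A -/
theorem Step.consA (a : Letter) {X Y : List Letter × ℕ} {s : Stp} (h : Step X Y s) :
    Step (a :: X.1, X.2 + 1) (a :: Y.1, Y.2 + 1) (mapA a s) := by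
  cases h with
  | swapL u b c v i h =>
    have := Step.swapL (a :: u) b c v (i + 1) (by simp; omega)
    simpa [mapA, cel_cons] using this
  | swapH u b c v i h =>
    have := Step.swapH (a :: u) b c v (i + 1) (by simp; omega)
    simpa [mapA, cel_cons] using this
  | sign u b i h =>
    have := Step.sign (a :: u) b (i + 1) (by simp; omega)
    simpa [mapA, cel_cons] using this
  | up u x v i h =>
    have := Step.up (a :: u) x v (i + 1) (by simp [h])
    simpa [mapA, cel_cons] using this
  | down u x v i h =>
    have := Step.down (a :: u) x v (i + 1) (by simp [h])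
    simpa [mapA, cel_cons] using this

theorem Walk.consA (a : Letter) {X Y : List Letter × ℕ} {t : List Stp} (h : Walk X Y t) :
    Walk (a :: X.1, X.2 + 1) (a :: Y.1, Y.2 + 1) (t.map (mapA a)) := by
  induction h with
  | nil X => exact Walk.nil _
  | cons h _ ih => exact Walk.cons (h.consA a) ih

/-- the cells of the nonempty prefixes of `u ++ v` longer than `u` -/
def ch : List Letter → List Letter → Multiset Cell
  | _, [] => 0
  | u, x :: v => {cel (u ++ [x])} + ch (u ++ [x]) v

theorem ch_congr (u u' v : List Letter) (h : cel u = cel u') : ch u v = ch u' v := by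
  induction v generalizing u u' with
  | nil => rfl
  | cons x v ih =>
    have : cel (u ++ [x]) = cel (u' ++ [x]) := by rw [cel_snoc, cel_snoc, h]
    rw [ch, ch, this, ih _ _ this]

theorem ch_append (u v v' : List Letter) : ch u (v ++ v') = ch u v + ch (u ++ v) v' := by
  induction v generalizing u with
  | nil => simp [ch]
  | cons x v ih => simp [ch, ih, add_assoc]

theorem ch_cons_map (a : Letter) (u v : List Letter) : ch (a :: u) v = (ch u v).map (pA a) := by
  induction v generalizing u with
  | nil => simp [ch]
  | cons x v ih =>
    rw [ch, ch, Multiset.map_add, List.cons_append, ih, Multiset.map_singleton, cel_cons]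

/-- phase B: the first letter goes to the end -/
theorem phaseB (a : Letter) (m : ℕ) (u v : List Letter) (h : u.length + v.length < m) :
    ∃ tr, Walk (u ++ a :: v, m) (u ++ v ++ [a], m) tr ∧ too 0 tr = ch u v ∧
      (∀ k, k ≠ 0 → fr k tr = 0 ∧ too k tr = 0) ∧ True := by
  induction v generalizing u with
  | nil => exact ⟨[], by simpa using Walk.nil _, by simp [too, ch], by simp [fr, too], trivial⟩
  | cons x v ih =>
    obtain ⟨tr, h1, h2, h3, -⟩ := ih (u ++ [x]) (by simp at h ⊢; omega)
    refine ⟨(0, cel (u ++ [a]), cel (u ++ [x])) :: tr, ?_, ?_, ?_, trivial⟩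
    · have s := Step.swapL u a x v m (by simp at h; omega)
      have h1' : Walk (u ++ x :: a :: v, m) (u ++ x :: v ++ [a], m) tr := by
        simpa using h1
      exact Walk.cons s h1'
    · rw [too, h2, ch]; simp
    · intro k hk
      rw [fr, too, (h3 k hk).1, (h3 k hk).2]
      simp [Ne.symm hk]

/-- the marker position at rest -/
def rs (n i : ℕ) : ℕ := if i % 2 = n % 2 then i + 1 else i

def rest (n : ℕ) (X : List Letter × ℕ) : List Letter × ℕ :=
  (X.1.take X.2 ++ (n, false) :: X.1.drop X.2, rs n X.2)

def g (n : ℕ) (s : Stp) : List Stp :=
  if s.1 = 0 then [(0, s.2.2, s.2.1)] else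
  if s.1 = 1 then [(1, pA (n, false) s.2.2, pA (n, false) s.2.1)] else
  if s.1 = 2 then
    (if s.2.2.1 % 2 = n % 2 then
      [(0, s.2.2, pA (n, false) s.2.1), (3, pA (n, false) s.2.2, pA (n, false) s.2.1),
        (3, pA (n, false) s.2.1, s.2.1)]
    else [(3, s.2.2, s.2.1), (1, s.2.2, pA (n, false) s.2.1), (2, s.2.1, pA (n, false) s.2.1)])
  else
    (if s.2.2.1 % 2 = n % 2 then
      [(2, pA (n, false) s.2.2, pA (n, false) s.2.1), (0, pA (n, false) s.2.2, s.2.1),
        (3, pA (n, false) s.2.1, s.2.1)]
    else [(1, pA (n, false) s.2.2, s.2.1), (2, s.2.2, s.2.1), (2, s.2.1, pA (n, false) s.2.1)])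

def E (n : ℕ) : List Stp → List Stp
  | [] => []
  | s :: tr => E n tr ++ g n s

theorem cel_mid (a : Letter) (u v : List Letter) : cel (u ++ a :: v) = pA a (cel (u ++ v)) := by
  simp only [cel, pA, List.length_append, List.length_cons, List.toFinset_append,
    List.toFinset_cons, Finset.union_insert]
  ext <;> simp [add_assoc]

theorem rest_up (n : ℕ) (u : List Letter) (x : Letter) (v : List Letter) :
    rest n (u ++ x :: v, u.length) = (u ++ (n, false) :: x :: v, rs n u.length) := by
  simp [rest]

theorem rest_up' (n : ℕ) (u : List Letter) (x : Letter) (v : List Letter) :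
    rest n (u ++ x :: v, u.length + 1) = (u ++ x :: (n, false) :: v, rs n (u.length + 1)) := by
  have e : u ++ x :: v = (u ++ [x]) ++ v := by simp
  have l : u.length + 1 = (u ++ [x]).length := by simp
  simp only [rest]
  rw [e, l, List.take_left, List.drop_left]
  simp

theorem phaseE_step (n : ℕ) {X Y : List Letter × ℕ} {s : Stp} (h : Step X Y s) :
    Walk (rest n Y) (rest n X) (g n s) := by
  cases h with
  | swapL u a b v i h =>
    obtain ⟨k, rfl⟩ : ∃ k, i = u.length + (k + 2) := ⟨i - u.length - 2, by omega⟩
    have hm : u.length + 1 < rs n (u.length + (k + 2)) := by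
      unfold rs; split_ifs <;> omega
    have := Walk.one (Step.swapL u b a (v.take k ++ (n, false) :: v.drop k) _ hm)
    have e2 : ∀ c d : Letter, (u ++ c :: d :: v).take (u.length + (k + 2)) =
        u ++ c :: d :: v.take k ∧ (u ++ c :: d :: v).drop (u.length + (k + 2)) = v.drop k := by
      intro c d
      constructor
      · rw [List.take_length_add_append]; simp
      · rw [List.drop_length_add_append]; simp
    simpa [rest, g, e2] using this
  | swapH u a b v i h =>
    have hi : i ≤ u.length := by omega
    have hm : rs n i < (u.take i ++ (n, false) :: u.drop i).length + 1 := by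
      simp only [List.length_append, List.length_take, List.length_cons, List.length_drop]
      unfold rs; split_ifs <;> omega
    have := Walk.one (Step.swapH (u.take i ++ (n, false) :: u.drop i) b a v _ hm)
    have e1 : ∀ c : Letter, cel (u.take i ++ (n, false) :: u.drop i ++ [c]) =
        pA (n, false) (cel (u ++ [c])) := by
      intro c
      rw [List.append_assoc, List.cons_append, cel_mid, ← List.append_assoc,
        List.take_append_drop]
    rw [e1, e1] at this
    have e2 : ∀ c d : Letter, (u ++ c :: d :: v).take i = u.take i ∧
        (u ++ c :: d :: v).drop i = u.drop i ++ c :: d :: v := by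
      intro c d
      exact ⟨List.take_append_of_le_length hi, List.drop_append_of_le_length hi⟩
    simpa [rest, g, e2] using this
  | sign u a i h =>
    have hi : i ≤ u.length := by omega
    have hm : rs n i < (u.take i ++ (n, false) :: u.drop i).length + 1 := by
      simp only [List.length_append, List.length_take, List.length_cons, List.length_drop]
      unfold rs; split_ifs <;> omega
    have := Walk.one (Step.sign (u.take i ++ (n, false) :: u.drop i) (ng a) _ hm)
    have e1 : ∀ c : Letter, cel (u.take i ++ (n, false) :: u.drop i ++ [c]) =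
        pA (n, false) (cel (u ++ [c])) := by
      intro c
      rw [List.append_assoc, List.cons_append, cel_mid, ← List.append_assoc,
        List.take_append_drop]
    have e3 : ng (ng a) = a := by simp [ng]
    rw [e1, e1, e3] at this
    have e2 : ∀ c : Letter, (u ++ [c]).take i = u.take i ∧
        (u ++ [c]).drop i = u.drop i ++ [c] := by
      intro c
      exact ⟨List.take_append_of_le_length hi, List.drop_append_of_le_length hi⟩
    simpa [rest, g, e2] using this
  | up u x v i h =>
    subst h
    rw [rest_up', rest_up]
    have l1 : (cel (u ++ [x])).1 = u.length + 1 := by simp [cel]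
    by_cases hp : (u.length + 1) % 2 = n % 2
    · have r1 : rs n (u.length + 1) = u.length + 2 := by simp [rs, hp]
      have r2 : rs n u.length = u.length := by
        unfold rs; rw [if_neg]; omega
      have hg : g n (2, cel u, cel (u ++ [x])) = [(0, cel (u ++ [x]), pA (n, false) (cel u)),
          (3, pA (n, false) (cel (u ++ [x])), pA (n, false) (cel u)),
          (3, pA (n, false) (cel u), cel u)] := by
        simp [g, l1, hp]
      rw [hg, r1, r2]
      refine Walk.cons (Y := (u ++ (n, false) :: x :: v, u.length + 2)) ?_
        (Walk.cons (Y := (u ++ (n, false) :: x :: v, u.length + 1)) ?_ (Walk.one ?_))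
      · have := Step.swapL u x (n, false) v (u.length + 2) (by omega)
        rwa [cel_snoc (n, false) u] at this
      · have := Step.down (u ++ [(n, false)]) x v (u.length + 1) (by simp)
        have e : cel (u ++ [(n, false)] ++ [x]) = pA (n, false) (cel (u ++ [x])) := by
          rw [List.append_assoc, List.singleton_append, cel_mid]
        rw [e, cel_snoc (n, false) u] at this
        simpa using this
      · have := Step.down u (n, false) (x :: v) u.length rfl
        rwa [cel_snoc (n, false) u] at this
    · have r1 : rs n (u.length + 1) = u.length + 1 := by simp [rs, hp]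
      have r2 : rs n u.length = u.length + 1 := by
        unfold rs; rw [if_pos]; omega
      have hg : g n (2, cel u, cel (u ++ [x])) = [(3, cel (u ++ [x]), cel u),
          (1, cel (u ++ [x]), pA (n, false) (cel u)), (2, cel u, pA (n, false) (cel u))] := by
        simp [g, l1, hp]
      rw [hg, r1, r2]
      refine Walk.cons (Y := (u ++ x :: (n, false) :: v, u.length)) ?_
        (Walk.cons (Y := (u ++ (n, false) :: x :: v, u.length)) ?_ (Walk.one ?_))
      · exact Step.down u x ((n, false) :: v) u.length rfl
      · have := Step.swapH u x (n, false) v u.length (by omega)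
        rwa [cel_snoc (n, false) u] at this
      · have := Step.up u (n, false) (x :: v) u.length rfl
        rwa [cel_snoc (n, false) u] at this
  | down u x v i h =>
    subst h
    rw [rest_up', rest_up]
    have l1 : (cel u).1 = u.length := by simp [cel]
    by_cases hp : u.length % 2 = n % 2
    · have r1 : rs n (u.length + 1) = u.length + 1 := by
        unfold rs; rw [if_neg]; omega
      have r2 : rs n u.length = u.length + 1 := by simp [rs, hp]
      have hg : g n (3, cel (u ++ [x]), cel u) =
          [(2, pA (n, false) (cel u), pA (n, false) (cel (u ++ [x]))),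
            (0, pA (n, false) (cel u), cel (u ++ [x])),
            (3, pA (n, false) (cel (u ++ [x])), cel (u ++ [x]))] := by
        simp [g, l1, hp]
      rw [hg, r1, r2]
      refine Walk.cons (Y := (u ++ (n, false) :: x :: v, u.length + 2)) ?_
        (Walk.cons (Y := (u ++ x :: (n, false) :: v, u.length + 2)) ?_ (Walk.one ?_))
      · have := Step.up (u ++ [(n, false)]) x v (u.length + 1) (by simp)
        have e : cel (u ++ [(n, false)] ++ [x]) = pA (n, false) (cel (u ++ [x])) := by
          rw [List.append_assoc, List.singleton_append, cel_mid]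
        rw [e, cel_snoc (n, false) u] at this
        simpa using this
      · have := Step.swapL u (n, false) x v (u.length + 2) (by omega)
        rwa [cel_snoc (n, false) u] at this
      · have := Step.down (u ++ [x]) (n, false) v (u.length + 1) (by simp)
        rw [cel_snoc (n, false) (u ++ [x])] at this
        simpa using this
    · have r1 : rs n (u.length + 1) = u.length + 2 := by
        unfold rs; rw [if_pos]; omega
      have r2 : rs n u.length = u.length := by simp [rs, hp]
      have hg : g n (3, cel (u ++ [x]), cel u) =
          [(1, pA (n, false) (cel u), cel (u ++ [x])), (2, cel u, cel (u ++ [x])),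
            (2, cel (u ++ [x]), pA (n, false) (cel (u ++ [x])))] := by
        simp [g, l1, hp]
      rw [hg, r1, r2]
      refine Walk.cons (Y := (u ++ x :: (n, false) :: v, u.length)) ?_
        (Walk.cons (Y := (u ++ x :: (n, false) :: v, u.length + 1)) ?_ (Walk.one ?_))
      · have := Step.swapH u (n, false) x v u.length (by omega)
        rwa [cel_snoc (n, false) u] at this
      · exact Step.up u x ((n, false) :: v) u.length rfl
      · have := Step.up (u ++ [x]) (n, false) v (u.length + 1) (by simp)
        rw [cel_snoc (n, false) (u ++ [x])] at this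
        simpa using this

theorem phaseE (n : ℕ) {X Y : List Letter × ℕ} {t : List Stp} (h : Walk X Y t) :
    Walk (rest n Y) (rest n X) (E n t) := by
  induction h with
  | nil X => exact Walk.nil _
  | cons h _ ih => exact ih.append (phaseE_step n h)

end Pool.Agent.U542.FH
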