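import Pool.Agent.U542.FH.Ind

namespace Pool.Agent.U542.FH

open Finset

theorem cel_perm {u v : List Letter} (h : u.Perm v) : cel u = cel v :=
  Prod.ext h.length_eq (List.toFinset_eq_of_perm _ _ h)

theorem ch_swap (u : List Letter) (a b : Letter) (v : List Letter) :
    ch [] (u ++ a :: b :: v) + {cel (u ++ [b])} = ch [] (u ++ b :: a :: v) + {cel (u ++ [a])} := by
  have e : cel (u ++ [a] ++ [b]) = cel (u ++ [b] ++ [a]) := by
    apply cel_perm
    simp only [List.append_assoc, List.singleton_append]
    exact List.Perm.append_left _ (List.Perm.swap _ _ _)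
  rw [ch_append, ch_append, List.nil_append, ch, ch, ch, ch, e, ch_congr _ _ v e]
  ext c
  simp only [Multiset.count_add]
  omega

theorem ch_sign (u : List Letter) (a b : Letter) :
    ch [] (u ++ [a]) + {cel (u ++ [b])} = ch [] (u ++ [b]) + {cel (u ++ [a])} := by
  rw [ch_append, ch_append, List.nil_append, ch, ch, ch, ch]
  ext c
  simp only [Multiset.count_add]
  omega

theorem Step.t1 {X Y : List Letter × ℕ} {s : Stp} (h : Step X Y s) :
    ch [] X.1 + too 0 [s] + too 1 [s] = ch [] Y.1 + fr 0 [s] + fr 1 [s] := by
  cases h with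
  | swapL u a b v i h => simpa [too, fr] using ch_swap u a b v
  | swapH u a b v i h => simpa [too, fr] using ch_swap u a b v
  | sign u a i h => simpa [too, fr] using ch_sign u a (ng a)
  | up u x v i h => simp [too, fr]
  | down u x v i h => simp [too, fr]

theorem mA {α β : Type} (f : α → β) (s t : Multiset α) :
    Multiset.map f (s + t) = Multiset.map f s + Multiset.map f t := Multiset.map_add f s t

theorem too_cons (k : ℕ) (s : Stp) (tr : List Stp) : too k (s :: tr) = too k [s] + too k tr := by
  simp [too]

theorem fr_cons (k : ℕ) (s : Stp) (tr : List Stp) : fr k (s :: tr) = fr k [s] + fr k tr := by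
  simp [fr]

theorem Walk.t1 {X Y : List Letter × ℕ} {t : List Stp} (h : Walk X Y t) :
    ch [] X.1 + too 0 t + too 1 t = ch [] Y.1 + fr 0 t + fr 1 t := by
  induction h with
  | nil X => simp [too, fr]
  | @cons X Y Z s tr h _ ih =>
    have h1 := h.t1
    rw [too_cons 0 s tr, too_cons 1 s tr, fr_cons 0 s tr, fr_cons 1 s tr]
    ext c
    have h1' := congrArg (Multiset.count c) h1
    have ih' := congrArg (Multiset.count c) ih
    simp only [Multiset.count_add] at h1' ih' ⊢
    omega

theorem Step.t2 {X Y : List Letter × ℕ} {s : Stp} (h : Step X Y s) :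
    {cel (X.1.take X.2)} + too 2 [s] + too 3 [s] =
      {cel (Y.1.take Y.2)} + fr 2 [s] + fr 3 [s] := by
  cases h with
  | swapL u a b v i h =>
    obtain ⟨k, rfl⟩ : ∃ k, i = u.length + (k + 2) := ⟨i - u.length - 2, by omega⟩
    have e2 : ∀ c d : Letter, (u ++ c :: d :: v).take (u.length + (k + 2)) =
        u ++ c :: d :: v.take k := by
      intro c d
      rw [List.take_length_add_append]; simp
    have e : cel (u ++ a :: b :: v.take k) = cel (u ++ b :: a :: v.take k) :=
      cel_perm (List.Perm.append_left _ (List.Perm.swap _ _ _))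
    simp [too, fr, e2, e]
  | swapH u a b v i h =>
    have hi : i ≤ u.length := by omega
    have e2 : ∀ c d : Letter, (u ++ c :: d :: v).take i = u.take i := by
      intro c d
      exact List.take_append_of_le_length hi
    simp only [e2]
    simp [too, fr]
  | sign u a i h =>
    have hi : i ≤ u.length := by omega
    have e2 : ∀ c : Letter, (u ++ [c]).take i = u.take i := by
      intro c
      exact List.take_append_of_le_length hi
    simp only [e2]
    simp [too, fr]
  | up u x v i h =>
    subst h
    have e : (u ++ x :: v).take (u.length + 1) = u ++ [x] := by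
      rw [List.take_length_add_append]; simp
    simp only [e, List.take_left]
    simp [too, fr, add_comm]
  | down u x v i h =>
    subst h
    have e : (u ++ x :: v).take (u.length + 1) = u ++ [x] := by
      rw [List.take_length_add_append]; simp
    simp only [e, List.take_left]
    simp [too, fr, add_comm]

theorem Walk.t2 {X Y : List Letter × ℕ} {t : List Stp} (h : Walk X Y t) :
    {cel (X.1.take X.2)} + too 2 t + too 3 t = {cel (Y.1.take Y.2)} + fr 2 t + fr 3 t := by
  induction h with
  | nil X => simp [too, fr]
  | @cons X Y Z s tr h _ ih =>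
    have h1 := h.t2
    rw [too_cons 2 s tr, too_cons 3 s tr, fr_cons 2 s tr, fr_cons 3 s tr]
    ext c
    have h1' := congrArg (Multiset.count c) h1
    have ih' := congrArg (Multiset.count c) ih
    simp only [Multiset.count_add] at h1' ih' ⊢
    omega

def okS (s : Stp) : Prop := s.1 = 0 ∨ s.1 = 1 ∨ (s.1 = 2 ∧ s.2.2.1 = s.2.1.1 + 1) ∨
  (s.1 = 3 ∧ s.2.1.1 = s.2.2.1 + 1)

theorem Step.ok {X Y : List Letter × ℕ} {s : Stp} (h : Step X Y s) : okS s := by
  cases h with
  | swapL u a b v i h => simp [okS]
  | swapH u a b v i h => simp [okS]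
  | sign u a i h => simp [okS]
  | up u x v i h => simp [okS, cel]
  | down u x v i h => simp [okS, cel]

theorem Walk.ok {X Y : List Letter × ℕ} {t : List Stp} (h : Walk X Y t) : ∀ s ∈ t, okS s := by
  induction h with
  | nil X => simp
  | cons h _ ih =>
    intro s hs
    rcases List.mem_cons.1 hs with rfl | hs
    · exact h.ok
    · exact ih s hs

def par (n : ℕ) (c : Cell) : Prop := c.1 % 2 = n % 2

instance (n : ℕ) : DecidablePred (par n) := fun c => inferInstanceAs (Decidable (c.1 % 2 = n % 2))



/-- additive expressions -/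
theorem E_add (n : ℕ) (F G : List Stp → Multiset Cell)
    (hF : ∀ t t', F (t ++ t') = F t + F t') (hF0 : F [] = 0)
    (hG : ∀ s t, G (s :: t) = G [s] + G t) (hG0 : G [] = 0)
    (hs : ∀ s, okS s → F (g n s) = G [s]) : ∀ t : List Stp, (∀ s ∈ t, okS s) →
      F (E n t) = G t := by
  intro t
  induction t with
  | nil => intro _; rw [E, hF0, hG0]
  | cons s t ih =>
    intro h
    rw [E, hF, ih (fun s' hs' => h s' (List.mem_cons_of_mem _ hs')), hG,
      hs s (h s List.mem_cons_self), add_comm]

theorem E_fr3 (n : ℕ) (t : List Stp) (h : ∀ s ∈ t, okS s) : fr 3 (E n t) =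
    (too 2 t).filter (fun c => ¬ par n c) + ((too 2 t).filter (par n)).map (pA (n, false)) +
      ((fr 2 t).filter (fun c => ¬ par n c)).map (pA (n, false)) +
      ((fr 3 t).filter (fun c => ¬ par n c)).map (pA (n, false)) := by
  refine E_add n (fr 3) (fun t => (too 2 t).filter (fun c => ¬ par n c) +
    ((too 2 t).filter (par n)).map (pA (n, false)) +
      ((fr 2 t).filter (fun c => ¬ par n c)).map (pA (n, false)) +
      ((fr 3 t).filter (fun c => ¬ par n c)).map (pA (n, false))) (fr_append 3) rfl ?_ (by simp [too, fr])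
      ?_ t h
  · intro s t
    simp only [too_cons _ s t, fr_cons _ s t, Multiset.filter_add, mA]
    eta_reduce
    ext c
    simp only [Multiset.count_add]
    omega
  · rintro ⟨k, P, Q⟩ hs
    rcases hs with hs | hs | ⟨hs, hr⟩ | ⟨hs, hr⟩ <;> simp only at hs <;> subst hs
    · simp [g, fr, too]
    · simp [g, fr, too]
    · simp only at hr
      by_cases hp : Q.1 % 2 = n % 2
      · have hP : ¬ P.1 % 2 = n % 2 := by omega
        simp [g, fr, too, hp, hP, par, Multiset.filter_singleton]
      · have hP : P.1 % 2 = n % 2 := by omega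
        simp [g, fr, too, hp, hP, par, Multiset.filter_singleton]
    · simp only at hr
      by_cases hp : Q.1 % 2 = n % 2
      · have hP : ¬ P.1 % 2 = n % 2 := by omega
        simp [g, fr, too, hp, hP, par, Multiset.filter_singleton]
      · have hP : P.1 % 2 = n % 2 := by omega
        simp [g, fr, too, hp, hP, par, Multiset.filter_singleton]

theorem E_fr1 (n : ℕ) (t : List Stp) (h : ∀ s ∈ t, okS s) : fr 1 (E n t) =
    (too 2 t).filter (fun c => ¬ par n c) + ((too 3 t).filter (fun c => ¬ par n c)).map (pA (n, false)) +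
      (too 1 t).map (pA (n, false)) := by
  refine E_add n (fr 1) (fun t => (too 2 t).filter (fun c => ¬ par n c) +
    ((too 3 t).filter (fun c => ¬ par n c)).map (pA (n, false)) +
      (too 1 t).map (pA (n, false))) (fr_append 1) rfl ?_ (by simp [too]) ?_ t h
  · intro s t
    simp only [too_cons _ s t, Multiset.filter_add, mA]
    eta_reduce
    ext c
    simp only [Multiset.count_add]
    omega
  · rintro ⟨k, P, Q⟩ hs
    rcases hs with hs | hs | ⟨hs, hr⟩ | ⟨hs, hr⟩ <;> simp only at hs <;> subst hs
    · simp [g, fr, too]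
    · simp [g, fr, too]
    · simp only at hr
      by_cases hp : Q.1 % 2 = n % 2
      · have hP : ¬ P.1 % 2 = n % 2 := by omega
        simp [g, fr, too, hp, hP, par, Multiset.filter_singleton]
      · have hP : P.1 % 2 = n % 2 := by omega
        simp [g, fr, too, hp, hP, par, Multiset.filter_singleton]
    · simp only at hr
      by_cases hp : Q.1 % 2 = n % 2
      · have hP : ¬ P.1 % 2 = n % 2 := by omega
        simp [g, fr, too, hp, hP, par, Multiset.filter_singleton]
      · have hP : P.1 % 2 = n % 2 := by omega
        simp [g, fr, too, hp, hP, par, Multiset.filter_singleton]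

theorem E_too2 (n : ℕ) (t : List Stp) (h : ∀ s ∈ t, okS s) : too 2 (E n t) =
    ((fr 2 t).filter (par n)).map (pA (n, false)) + (fr 3 t).filter (par n) + (fr 3 t).map (pA (n, false)) := by
  refine E_add n (too 2) (fun t => ((fr 2 t).filter (par n)).map (pA (n, false)) +
    (fr 3 t).filter (par n) + (fr 3 t).map (pA (n, false))) (too_append 2) rfl ?_ (by simp [fr]) ?_ t h
  · intro s t
    simp only [fr_cons _ s t, Multiset.filter_add, mA]
    eta_reduce
    ext c
    simp only [Multiset.count_add]
    omega
  · rintro ⟨k, P, Q⟩ hs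
    rcases hs with hs | hs | ⟨hs, hr⟩ | ⟨hs, hr⟩ <;> simp only at hs <;> subst hs
    · simp [g, fr, too]
    · simp [g, fr, too]
    · simp only at hr
      by_cases hp : Q.1 % 2 = n % 2
      · have hP : ¬ P.1 % 2 = n % 2 := by omega
        simp [g, fr, too, hp, hP, par, Multiset.filter_singleton]
      · have hP : P.1 % 2 = n % 2 := by omega
        simp [g, fr, too, hp, hP, par, Multiset.filter_singleton]
    · simp only at hr
      by_cases hp : Q.1 % 2 = n % 2
      · have hP : ¬ P.1 % 2 = n % 2 := by omega
        simp [g, fr, too, hp, hP, par, Multiset.filter_singleton]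
      · have hP : P.1 % 2 = n % 2 := by omega
        simp [g, fr, too, hp, hP, par, Multiset.filter_singleton]

theorem E_too1 (n : ℕ) (t : List Stp) (h : ∀ s ∈ t, okS s) : too 1 (E n t) =
    ((fr 2 t).filter (par n)).map (pA (n, false)) + (fr 3 t).filter (par n) + (fr 1 t).map (pA (n, false)) := by
  refine E_add n (too 1) (fun t => ((fr 2 t).filter (par n)).map (pA (n, false)) +
    (fr 3 t).filter (par n) + (fr 1 t).map (pA (n, false))) (too_append 1) rfl ?_ (by simp [fr]) ?_ t h
  · intro s t
    simp only [fr_cons _ s t, Multiset.filter_add, mA]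
    eta_reduce
    ext c
    simp only [Multiset.count_add]
    omega
  · rintro ⟨k, P, Q⟩ hs
    rcases hs with hs | hs | ⟨hs, hr⟩ | ⟨hs, hr⟩ <;> simp only at hs <;> subst hs
    · simp [g, fr, too]
    · simp [g, fr, too]
    · simp only at hr
      by_cases hp : Q.1 % 2 = n % 2
      · have hP : ¬ P.1 % 2 = n % 2 := by omega
        simp [g, fr, too, hp, hP, par, Multiset.filter_singleton]
      · have hP : P.1 % 2 = n % 2 := by omega
        simp [g, fr, too, hp, hP, par, Multiset.filter_singleton]
    · simp only at hr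
      by_cases hp : Q.1 % 2 = n % 2
      · have hP : ¬ P.1 % 2 = n % 2 := by omega
        simp [g, fr, too, hp, hP, par, Multiset.filter_singleton]
      · have hP : P.1 % 2 = n % 2 := by omega
        simp [g, fr, too, hp, hP, par, Multiset.filter_singleton]

theorem E_too01 (n : ℕ) (t : List Stp) (h : ∀ s ∈ t, okS s) : too 0 (E n t) + too 1 (E n t) =
    (fr 2 t).map (pA (n, false)) + fr 3 t + fr 0 t + (fr 1 t).map (pA (n, false)) := by
  refine E_add n (fun t => too 0 t + too 1 t) (fun t => (fr 2 t).map (pA (n, false)) + fr 3 t + fr 0 t +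
    (fr 1 t).map (pA (n, false))) ?_ rfl ?_ (by simp [fr]) ?_ t h
  · intro t t'
    simp only [too_append]
    ext c
    simp only [Multiset.count_add]
    omega
  · intro s t
    simp only [fr_cons _ s t, mA]
    eta_reduce
    ext c
    simp only [Multiset.count_add]
    omega
  · rintro ⟨k, P, Q⟩ hs
    rcases hs with hs | hs | ⟨hs, hr⟩ | ⟨hs, hr⟩ <;> simp only at hs <;> subst hs
    · simp [g, fr, too]
    · simp [g, fr, too]
    · by_cases hp : Q.1 % 2 = n % 2 <;> simp [g, fr, too, hp]
    · by_cases hp : Q.1 % 2 = n % 2 <;> simp [g, fr, too, hp]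

theorem E_too23 (n : ℕ) (t : List Stp) (h : ∀ s ∈ t, okS s) : too 2 (E n t) + too 3 (E n t) =
    fr 2 t + (fr 2 t).map (pA (n, false)) + fr 3 t + (fr 3 t).map (pA (n, false)) := by
  refine E_add n (fun t => too 2 t + too 3 t) (fun t => fr 2 t + (fr 2 t).map (pA (n, false)) + fr 3 t +
    (fr 3 t).map (pA (n, false))) ?_ rfl ?_ (by simp [fr]) ?_ t h
  · intro t t'
    simp only [too_append]
    ext c
    simp only [Multiset.count_add]
    omega
  · intro s t
    simp only [fr_cons _ s t, mA]
    eta_reduce
    ext c
    simp only [Multiset.count_add]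
    omega
  · rintro ⟨k, P, Q⟩ hs
    rcases hs with hs | hs | ⟨hs, hr⟩ | ⟨hs, hr⟩ <;> simp only at hs <;> subst hs
    · simp [g, fr, too]
    · simp [g, fr, too]
    · by_cases hp : Q.1 % 2 = n % 2 <;> simp [g, fr, too, hp] <;>
        (ext c; simp only [Multiset.count_cons, Multiset.count_singleton]; omega)
    · by_cases hp : Q.1 % 2 = n % 2 <;> simp [g, fr, too, hp] <;>
        (ext c; simp only [Multiset.count_cons, Multiset.count_singleton]; omega)

end Pool.Agent.U542.FH
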