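import Pool.Agent.U542.FH.Ind2

namespace Pool.Agent.U542.FH

open Finset

def AllNE : ℕ → Multiset Cell
  | 0 => 0
  | n + 1 => AllNE n + (({((0 : ℕ), (∅ : Finset Letter))} + AllNE n).map (pA (n, true)) +
      ({((0 : ℕ), (∅ : Finset Letter))} + AllNE n).map (pA (n, false)))

def Al (n : ℕ) : Multiset Cell := {((0 : ℕ), (∅ : Finset Letter))} + AllNE n

def Good (n : ℕ) : Prop :=
  ∃ (w0 wK : List Letter) (tr : List Stp), Valid n w0 ∧ Valid n wK ∧ Walk (w0, n) (wK, n) tr ∧
    (∃ u a, wK = u ++ [a] ∧ w0 = ng a :: u) ∧ ch [] w0 + too 0 tr + too 1 tr = AllNE n ∧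
    {cel w0} + too 2 tr + too 3 tr = Al n ∧ fr 3 tr = fr 1 tr ∧ too 2 tr = too 1 tr

theorem cel_nil : cel [] = (0, ∅) := rfl

theorem good_one : Good 1 := by
  refine ⟨[(0, true)], [(0, false)], [(3, cel ([] ++ [(0, true)]), cel []),
    (1, cel ([] ++ [(0, true)]), cel ([] ++ [ng (0, true)])),
    (2, cel [], cel ([] ++ [(0, false)]))], by simp [Valid], by simp [Valid], ?_,
    ⟨[], (0, false), rfl, rfl⟩, ?_, ?_, ?_, ?_⟩
  · refine Walk.cons (Y := ([(0, true)], 0)) (Step.down [] (0, true) [] 0 rfl)
      (Walk.cons (Y := ([(0, false)], 0)) (Step.sign [] (0, true) 0 (by simp)) (Walk.one ?_))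
    exact Step.up [] (0, false) [] 0 rfl
  · simp [ch, too, AllNE, cel_cons, cel_nil, ng]
  · simp [too, Al, AllNE, cel_cons, cel_nil]
    ext c; simp only [Multiset.count_cons, Multiset.count_singleton]; omega
  · simp [fr]
  · simp [too, ng]

theorem valid_len {n : ℕ} {w : List Letter} (h : Valid n w) : w.length = n := by
  simpa using h.length_eq

theorem good_succ (n : ℕ) (h : Good n) : Good (n + 1) := by
  obtain ⟨w0, wK, tr, v0, vK, hw, ⟨u, a, hu, hu'⟩, i1, i2, i3, i4⟩ := h
  have l0 := valid_len v0
  have lK := valid_len vK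
  have hok := hw.ok
  have t1 := hw.t1
  have t2 := hw.t2
  simp only at t1 t2
  rw [List.take_of_length_le (by omega), List.take_of_length_le (by omega)] at t2
  obtain ⟨tB, hB, hB0, hBk, -⟩ := phaseB (n, true) (n + 1) [] wK (by simp [lK])
  have hA := hw.consA (n, true)
  have hE := phaseE n hw
  have r0 : rest n (w0, n) = (w0 ++ [(n, false)], n + 1) := by
    simp only [rest]
    rw [List.take_of_length_le (by omega), List.drop_of_length_le (by omega)]
    simp [rs]
  have rK : rest n (wK, n) = (wK ++ [(n, false)], n + 1) := by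
    simp only [rest]
    rw [List.take_of_length_le (by omega), List.drop_of_length_le (by omega)]
    simp [rs]
  rw [r0, rK] at hE
  have hC : Walk (wK ++ [(n, true)], n + 1) (wK ++ [(n, false)], n + 1)
      [(3, cel (wK ++ [(n, true)]), cel wK),
        (1, cel (wK ++ [(n, true)]), cel (wK ++ [(n, false)])),
        (2, cel wK, cel (wK ++ [(n, false)]))] := by
    refine Walk.cons (Y := (wK ++ [(n, true)], n)) (Step.down wK (n, true) [] n lK.symm)
      (Walk.cons (Y := (wK ++ [(n, false)], n)) (Step.sign wK (n, true) n (by omega))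
        (Walk.one (Step.up wK (n, false) [] n lK.symm)))
  refine ⟨(n, true) :: w0, w0 ++ [(n, false)], tr.map (mapA (n, true)) ++ (tB ++
    ([(3, cel (wK ++ [(n, true)]), cel wK),
        (1, cel (wK ++ [(n, true)]), cel (wK ++ [(n, false)])),
        (2, cel wK, cel (wK ++ [(n, false)]))] ++ E n tr)), ?_, ?_, ?_,
      ⟨w0, (n, false), rfl, rfl⟩, ?_, ?_, ?_, ?_⟩
  · unfold Valid
    rw [List.map_cons, List.range_succ]
    exact (List.Perm.cons n v0).trans (List.perm_append_singleton n (List.range n)).symm
  · unfold Valid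
    rw [List.map_append, List.range_succ]
    exact v0.append_right _
  · exact hA.append (hB.append (hC.append hE))
  · -- I1
    have e01 := E_too01 n tr hok
    have ec : ch [] ((n, true) :: w0) = {pA (n, true) (0, ∅)} + (ch [] w0).map (pA (n, true)) := by
      rw [ch, List.nil_append, ch_cons_map, cel_cons, cel_nil]
    have z0 := hBk 1 (by omega)
    simp only [too_append, too_mapA, hB0, z0.2, ec, cel_snoc _ wK]
    rw [too_cons 0 _ [_, _], too_cons 0 _ [_], too_cons 1 _ [_, _], too_cons 1 _ [_]]
    have i1' := congrArg (Multiset.map (pA (n, true))) i1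
    have t2' := congrArg (Multiset.map (pA (n, false))) t2
    rw [i2] at t2'
    simp only [mA] at i1' t2'
    rw [AllNE]
    simp only [Al, mA, Multiset.map_singleton] at i1' t2' ⊢
    simp only [too, if_true, if_false]
    ext c
    have q1 := congrArg (Multiset.count c) i1'
    have q2 := congrArg (Multiset.count c) t2'
    have q3 := congrArg (Multiset.count c) t1
    have q4 := congrArg (Multiset.count c) i1
    have q5 := congrArg (Multiset.count c) e01
    have q6 := congrArg (Multiset.count c) i3
    have q7 := congrArg (Multiset.count c) (congrArg (Multiset.map (pA (n, false))) i3)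
    simp only [Multiset.count_add, Multiset.count_zero] at q1 q2 q3 q4 q5 q6 q7 ⊢
    simp only [OfNat.ofNat_ne_zero, OfNat.ofNat_ne_one, one_ne_zero, if_false,
      Multiset.count_zero] at *
    omega
  · -- I2
    have e23 := E_too23 n tr hok
    simp only [too_append, too_mapA, (hBk 2 (by omega)).2, (hBk 3 (by omega)).2, cel_snoc _ wK,
      cel_cons]
    rw [too_cons 2 _ [_, _], too_cons 2 _ [_], too_cons 3 _ [_, _], too_cons 3 _ [_]]
    have i2' := congrArg (Multiset.map (pA (n, true))) i2
    have t2' := congrArg (Multiset.map (pA (n, false))) t2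
    rw [i2] at t2 t2'
    simp only [mA] at i2' t2'
    have eA : Al (n + 1) = Al n + (Al n).map (pA (n, true)) + (Al n).map (pA (n, false)) := by
      simp only [Al, AllNE]
      ext c
      simp only [Multiset.count_add]
      omega
    rw [eA]
    simp only [Multiset.map_singleton] at i2' t2' ⊢
    simp only [too, if_true]
    ext c
    have q1 := congrArg (Multiset.count c) i2'
    have q2 := congrArg (Multiset.count c) t2'
    have q3 := congrArg (Multiset.count c) t2
    have q5 := congrArg (Multiset.count c) e23
    simp only [Multiset.count_add, Multiset.count_zero] at q1 q2 q3 q5 ⊢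
    simp only [OfNat.ofNat_ne_zero, OfNat.ofNat_ne_one, one_ne_zero, if_false,
      Multiset.count_zero] at *
    norm_num at *
    omega
  · -- I3
    have e3 := E_fr3 n tr hok
    have e1 := E_fr1 n tr hok
    simp only [fr_append, fr_mapA, (hBk 1 (by omega)).1, (hBk 3 (by omega)).1]
    rw [fr_cons 3 _ [_, _], fr_cons 3 _ [_], fr_cons 1 _ [_, _], fr_cons 1 _ [_], e3, e1]
    have pK : ¬ ¬ par n (cel wK) := by simp [par, cel, lK]
    have p0 : ¬ ¬ par n (cel w0) := by simp [par, cel, l0]
    have f2 := congrArg (Multiset.map (pA (n, false)))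
      (congrArg (Multiset.filter (fun c => ¬ par n c)) t2)
    simp only [Multiset.filter_add, mA] at f2
    eta_reduce at f2
    rw [Multiset.filter_singleton, Multiset.filter_singleton, if_neg pK, if_neg p0] at f2
    have f4 : Multiset.map (pA (n, false)) (too 1 tr) =
        ((too 2 tr).filter (par n)).map (pA (n, false)) +
          ((too 2 tr).filter (fun c => ¬ par n c)).map (pA (n, false)) := by
      rw [← i4, ← mA, Multiset.filter_add_not]
    rw [f4, i3]
    simp only [fr, if_true]
    ext c
    have q1 := congrArg (Multiset.count c) f2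
    rw [i3] at q1
    simp only [Multiset.count_add, Multiset.count_zero, Multiset.map_zero,
      Multiset.empty_eq_zero] at q1 ⊢
    norm_num at *
    omega
  · -- I4
    have e2 := E_too2 n tr hok
    have e1 := E_too1 n tr hok
    simp only [too_append, too_mapA, (hBk 1 (by omega)).2, (hBk 2 (by omega)).2]
    rw [too_cons 2 _ [_, _], too_cons 2 _ [_], too_cons 1 _ [_, _], too_cons 1 _ [_], e2, e1,
      i3, i4]
    simp [too]

end Pool.Agent.U542.FH
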