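import Pool.Agent.U542.FH.Ind3

namespace Pool.Agent.U542.FH

open Finset

theorem good_all (n : ℕ) (h : 1 ≤ n) : Good n := by
  induction n, h using Nat.le_induction with
  | base => exact good_one
  | succ n _ ih => exact good_succ n ih

/-- walks of flips with the created cells -/
inductive FW : List Letter → List Letter → List Cell → Prop
  | nil (w) : FW w w []
  | cons {w w' w'' : List Letter} {q : Cell} {qs : List Cell} (h : Flip w w' q)
      (t : FW w' w'' qs) : FW w w'' (q :: qs)

theorem FW.append {w w' w'' : List Letter} {t t' : List Cell} (h : FW w w' t)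
    (h' : FW w' w'' t') : FW w w'' (t ++ t') := by
  induction h with
  | nil X => simpa using h'
  | cons h _ ih => exact FW.cons h (ih h')

theorem cel_eq (u : List Letter) (b : Letter) :
    cel (u ++ [b]) = (u.length + 1, (u ++ [b]).toFinset) := by simp [cel]

theorem Walk.fw {X Y : List Letter × ℕ} {t : List Stp} (h : Walk X Y t) :
    ∃ qs : List Cell, FW X.1 Y.1 qs ∧ (qs : Multiset Cell) = too 0 t + too 1 t := by
  induction h with
  | nil X => exact ⟨[], FW.nil _, by simp [too]⟩
  | @cons X Y Z s tr h _ ih =>
    obtain ⟨qs, h1, h2⟩ := ih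
    cases h with
    | swapL u a b v i h =>
      refine ⟨cel (u ++ [b]) :: qs, FW.cons (Or.inl ⟨u, a, b, v, rfl, rfl, cel_eq _ _⟩) h1, ?_⟩
      rw [← Multiset.cons_coe, h2, ← Multiset.singleton_add]
      simp [too]
    | swapH u a b v i h =>
      refine ⟨cel (u ++ [b]) :: qs, FW.cons (Or.inl ⟨u, a, b, v, rfl, rfl, cel_eq _ _⟩) h1, ?_⟩
      rw [← Multiset.cons_coe, h2, ← Multiset.singleton_add]
      simp [too]
    | sign u a i h =>
      refine ⟨cel (u ++ [ng a]) :: qs, FW.cons (Or.inr ⟨u, a, rfl, rfl, cel_eq _ _⟩) h1, ?_⟩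
      rw [← Multiset.cons_coe, h2, ← Multiset.singleton_add]
      simp [too]
    | up u x v i h => exact ⟨qs, h1, by rw [h2]; simp [too]⟩
    | down u x v i h => exact ⟨qs, h1, by rw [h2]; simp [too]⟩

theorem front (u : List Letter) (b : Letter) (v : List Letter) :
    ∃ qs : List Cell, FW (u ++ b :: v) (b :: u ++ v) qs ∧
      (qs : Multiset Cell) + {cel (u ++ [b])} = ch [] (b :: u) := by
  induction u using List.reverseRecOn generalizing v with
  | nil => exact ⟨[], FW.nil _, by simp [ch]⟩
  | append_singleton u x ih =>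
    obtain ⟨qs, h1, h2⟩ := ih (x :: v)
    refine ⟨cel (u ++ [b]) :: qs, ?_, ?_⟩
    · have e1 : u ++ [x] ++ b :: v = u ++ x :: b :: v := by simp
      have e2 : b :: (u ++ [x]) ++ v = b :: u ++ x :: v := by simp
      rw [e1, e2]
      exact FW.cons (Or.inl ⟨u, x, b, v, rfl, rfl, cel_eq _ _⟩) h1
    · have e : cel (u ++ [x] ++ [b]) = cel (b :: u ++ [x]) := by
        apply cel_perm
        exact (List.perm_append_singleton b (u ++ [x]))
      have e2 : b :: (u ++ [x]) = (b :: u) ++ [x] := rfl
      rw [e2, ch_append, List.nil_append, ← h2, ← Multiset.cons_coe, ← Multiset.singleton_add, e,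
        ch, ch]
      ext c
      simp only [Multiset.count_add, Multiset.count_zero]
      omega

theorem closed (n : ℕ) (h : 1 ≤ n) : ∃ (w0 : List Letter) (qs : List Cell), Valid n w0 ∧
    FW w0 w0 qs ∧ (qs : Multiset Cell) = AllNE n := by
  obtain ⟨w0, wK, tr, v0, vK, hw, ⟨u, a, hu, hu'⟩, i1, -, -, -⟩ := good_all n h
  obtain ⟨q1, f1, e1⟩ := hw.fw
  simp only at f1
  obtain ⟨q2, f2, e2⟩ := front u (ng a) []
  refine ⟨w0, q1 ++ (cel (u ++ [ng a]) :: q2), v0, f1.append ?_, ?_⟩
  · rw [hu, hu']
    refine FW.cons (Or.inr ⟨u, a, rfl, rfl, cel_eq _ _⟩) ?_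
    simpa using f2
  · rw [← Multiset.coe_add, ← Multiset.cons_coe, ← Multiset.singleton_add, e1, ← i1, hu', ← e2]
    ext c
    simp only [Multiset.count_add]
    omega

theorem FW.seq {w w' : List Letter} {qs : List Cell} (h : FW w w' qs) :
    ∃ c : ℕ → List Letter, c 0 = w ∧ c qs.length = w' ∧
      ∀ k (hk : k < qs.length), Flip (c k) (c (k + 1)) qs[k] := by
  induction h with
  | nil w => exact ⟨fun _ => w, rfl, rfl, by simp⟩
  | @cons w w' w'' q qs h _ ih =>
    obtain ⟨c, h0, h1, h2⟩ := ih
    refine ⟨fun k => Nat.casesOn k w c, rfl, by simpa using h1, ?_⟩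
    intro k hk
    cases k with
    | zero => simpa [h0] using h
    | succ k => simpa using h2 k (by simpa using hk)

theorem Flip.valid {n : ℕ} {w w' : List Letter} {q : Cell} (h : Flip w w' q) (hv : Valid n w) :
    Valid n w' := by
  rcases h with ⟨u, a, b, v, rfl, rfl, -⟩ | ⟨u, a, rfl, rfl, -⟩
  · refine List.Perm.trans (List.Perm.map _ ?_) hv
    exact List.Perm.append_left _ (List.Perm.swap _ _ _)
  · simpa [Valid, ng] using hv

theorem AllNE_prop (n : ℕ) : ∀ c ∈ AllNE n, (∀ x ∈ c.2, x.1 < n) ∧ 1 ≤ c.1 := by
  induction n with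
  | zero => simp [AllNE]
  | succ n ih =>
    intro c hc
    rw [AllNE, Multiset.mem_add, Multiset.mem_add, Multiset.mem_map, Multiset.mem_map] at hc
    have key : ∀ b : Bool, (∃ d ∈ ({((0 : ℕ), (∅ : Finset Letter))} + AllNE n : Multiset Cell),
        pA (n, b) d = c) → (∀ x ∈ c.2, x.1 < n + 1) ∧ 1 ≤ c.1 := by
      rintro b ⟨d, hd, rfl⟩
      refine ⟨?_, by simp [pA]⟩
      intro x hx
      rcases Finset.mem_insert.1 hx with rfl | hx
      · simp
      · rcases Multiset.mem_add.1 hd with hd | hd
        · rw [Multiset.mem_singleton.1 hd] at hx; simp at hx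
        · have := (ih d hd).1 x hx; omega
    rcases hc with hc | hc | hc
    · exact ⟨fun x hx => by have := (ih c hc).1 x hx; omega, (ih c hc).2⟩
    · exact key true hc
    · exact key false hc

theorem Al_prop (n : ℕ) : ∀ c ∈ Al n, ∀ x ∈ c.2, x.1 < n := by
  intro c hc x hx
  rcases Multiset.mem_add.1 hc with hd | hd
  · rw [Multiset.mem_singleton.1 hd] at hx; simp at hx
  · exact (AllNE_prop n c hd).1 x hx

theorem Al_succ (n : ℕ) : Al (n + 1) = Al n + (Al n).map (pA (n, true)) +
    (Al n).map (pA (n, false)) := by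
  simp only [Al, AllNE]
  ext c
  simp only [Multiset.count_add]
  omega

theorem Al_nodup (n : ℕ) : (Al n).Nodup := by
  induction n with
  | zero => simp [Al, AllNE]
  | succ n ih =>
    have hin : ∀ b : Bool, ∀ c ∈ Al n, ((n, b) : Letter) ∉ c.2 := by
      intro b c hc hx
      have := Al_prop n c hc _ hx
      simp at this
    have hmap : ∀ b : Bool, ((Al n).map (pA (n, b))).Nodup := by
      intro b
      refine Multiset.Nodup.map_on ?_ ih
      intro x hx y hy hxy
      have h1 : x.1 = y.1 := by
        have := congrArg Prod.fst hxy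
        simpa [pA] using this
      have h2 : insert ((n, b) : Letter) x.2 = insert (n, b) y.2 := congrArg Prod.snd hxy
      have h3 : x.2 = y.2 := by
        rw [← Finset.erase_insert (hin b x hx), h2, Finset.erase_insert (hin b y hy)]
      exact Prod.ext h1 h3
    rw [Al_succ, Multiset.nodup_add, Multiset.nodup_add]
    refine ⟨⟨ih, hmap true, ?_⟩, hmap false, ?_⟩
    · rw [Multiset.disjoint_left]
      intro c hc hc'
      obtain ⟨d, hd, rfl⟩ := Multiset.mem_map.1 hc'
      exact hin true _ hc (by simp [pA])
    · rw [Multiset.disjoint_left]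
      intro c hc hc'
      obtain ⟨d, hd, rfl⟩ := Multiset.mem_map.1 hc'
      rcases Multiset.mem_add.1 hc with hc | hc
      · exact hin false _ hc (by simp [pA])
      · obtain ⟨e, he, hee⟩ := Multiset.mem_map.1 hc
        have h2 : insert ((n, true) : Letter) e.2 = insert (n, false) d.2 := congrArg Prod.snd hee
        have h3 : ((n, false) : Letter) ∈ insert ((n, true) : Letter) e.2 := by
          rw [h2]; simp
        rcases Finset.mem_insert.1 h3 with h3 | h3
        · simp at h3
        · exact hin false _ he h3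

theorem mem_Al (n : ℕ) : ∀ u : List Letter, (u.map Prod.fst).Nodup → (∀ x ∈ u, x.1 < n) →
    cel u ∈ Al n := by
  induction n with
  | zero =>
    intro u _ h2
    have : u = [] := List.eq_nil_iff_forall_not_mem.2 fun x hx => by simpa using h2 x hx
    subst this
    simp [Al, AllNE, cel_nil]
  | succ n ih =>
    intro u h1 h2
    rw [Al_succ]
    by_cases hn : ∀ x ∈ u, x.1 < n
    · exact Multiset.mem_add.2 (Or.inl (Multiset.mem_add.2 (Or.inl (ih u h1 hn))))
    · push Not at hn
      obtain ⟨⟨m, b⟩, hx, hm⟩ := hn
      have : m = n := by have := h2 _ hx; simp at this hm; omega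
      subst this
      obtain ⟨u1, u2, rfl⟩ := List.append_of_mem hx
      rw [List.map_append, List.map_cons] at h1
      have h1' := h1
      rw [List.nodup_middle, List.nodup_cons] at h1'
      have hc : cel (u1 ++ u2) ∈ Al m := by
        refine ih _ (by rw [List.map_append]; exact h1'.2) ?_
        intro x hx
        have hx2 : x.1 < m + 1 := h2 x (by
          rcases List.mem_append.1 hx with h | h
          · exact List.mem_append_left _ h
          · exact List.mem_append_right _ (List.mem_cons_of_mem _ h))
        have hx3 : x.1 ≠ m := by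
          intro he
          apply h1'.1
          rw [← List.map_append]
          exact List.mem_map.2 ⟨x, hx, he⟩
        omega
      rw [cel_mid]
      cases b
      · exact Multiset.mem_add.2 (Or.inr (Multiset.mem_map_of_mem _ hc))
      · exact Multiset.mem_add.2 (Or.inl (Multiset.mem_add.2
          (Or.inr (Multiset.mem_map_of_mem _ hc))))

theorem t_IND : S_IND := by
  intro n hn
  obtain ⟨w0, qs, v0, hf, hq⟩ := closed n hn
  obtain ⟨c, h0, h1, h2⟩ := hf.seq
  have hnd : qs.Nodup := by
    have := Al_nodup n
    rw [Al, Multiset.nodup_add] at this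
    have h := this.2.1
    rw [← hq, Multiset.coe_nodup] at h
    exact h
  refine ⟨qs.length, c, fun k => qs.getD k (0, ∅), by rw [h0, h1], ?_, ?_, ?_⟩
  · intro k hk
    induction k with
    | zero => rw [h0]; exact v0
    | succ k ih => exact (h2 k (by omega)).valid (ih (by omega))
  · intro k hk
    have := h2 k hk
    simpa [List.getD_eq_getElem?_getD, hk] using this
  · intro w j hw hj1 hj2
    have hl := valid_len hw
    have hcel : cel (w.take j) = (j, pre w j) := by
      simp [cel, pre, hl, hj2]
    have hmem : (j, pre w j) ∈ AllNE n := by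
      have hA : cel (w.take j) ∈ Al n := by
        refine mem_Al n _ ?_ ?_
        · rw [List.map_take]
          exact (hw.nodup_iff.2 List.nodup_range).sublist (List.take_sublist _ _)
        · intro x hx
          have : x.1 ∈ List.range n :=
            hw.subset (List.mem_map_of_mem (List.take_subset _ _ hx))
          simpa using this
      rcases Multiset.mem_add.1 hA with hd | hd
      · have := congrArg Prod.fst (Multiset.mem_singleton.1 hd)
        rw [hcel] at this
        simp at this
        omega
      · rwa [hcel] at hd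
    rw [← hq, Multiset.mem_coe, List.mem_iff_getElem] at hmem
    obtain ⟨k, hk, hkk⟩ := hmem
    refine ⟨k, ⟨hk, by simp [List.getD_eq_getElem?_getD, hk, hkk]⟩, ?_⟩
    rintro k' ⟨hk', hkk'⟩
    have e : qs[k'] = qs[k] := by
      rw [hkk, ← hkk']
      simp [List.getD_eq_getElem?_getD, hk']
    exact (hnd.getElem_inj_iff).1 e

end Pool.Agent.U542.FH
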